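import Mathlib

/-!
Uniform approximation of continuous functions on real `c_0` by real analytic functions.

Outline.
1. Holomorphic M-test on complex normed spaces (`analyticAt_tsum`), from Cauchy estimates.
2. `majorant`: every locally bounded above function on real `c_0` has a real analytic majorant (with
   a holomorphic extension near each real point). It is the limit of the recursion
   `g (m+1) = g m + h_m(x)^2 exp(-(g m * rho_m(x))^(2(m+1))) (1 - exp(-((g m * x_m)^(2 P_m) + Q)))`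
   in which `h_m`, `rho_m` are polynomials in the first `m+1` coordinates (Stone and Weierstrass).
   The new coordinate `x_m` is always measured at the scale `1 / g m`, which is the local scale.
3. `approx`: with a majorant `L` of the reciprocal of the modulus of continuity and a second
   majorant `M`, the quotient of the sums of `f(x_j) c_j exp(-M(x) Q(L(x)(x - x_j)))` and
   `c_j exp(-M(x) Q(L(x)(x - x_j)))` over a dense sequence is analytic and close to `f`.
-/

open Metric Filter Topology Set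
open scoped ENNReal NNReal Nat

namespace Pool.Agent.Results.MP_149452_an.AnalyticApprox

section Holo

variable {E : Type} [NormedAddCommGroup E] [NormedSpace ℂ E]

/-- Cauchy estimate for the Frechet derivative -/
theorem fderiv_bound {G : Type} [NormedAddCommGroup G] [NormedSpace ℂ G]
    {f : E → G} {x : E} {h M : ℝ} (hh : 0 < h)
    (hf : ∀ z ∈ closedBall x h, DifferentiableAt ℂ f z)
    (hb : ∀ z ∈ closedBall x h, ‖f z‖ ≤ M) : ‖fderiv ℂ f x‖ ≤ M / h := by
  have hM : 0 ≤ M := (norm_nonneg _).trans (hb x (mem_closedBall_self hh.le))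
  refine ContinuousLinearMap.opNorm_le_bound _ (by positivity) fun v => ?_
  rcases eq_or_ne v 0 with rfl | hv
  · simp
  have hv0 : 0 < ‖v‖ := norm_pos_iff.2 hv
  set ph : ℂ → G := fun ζ => f (x + ζ • v) with hph
  have hmem : ∀ ζ ∈ closedBall (0 : ℂ) (h / ‖v‖), x + ζ • v ∈ closedBall x h := by
    intro ζ hζ
    rw [mem_closedBall, dist_eq_norm] at *
    rw [add_sub_cancel_left, norm_smul]
    rw [sub_zero] at hζ
    calc ‖ζ‖ * ‖v‖ ≤ h / ‖v‖ * ‖v‖ := by gcongr
      _ = h := by field_simp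
  have hlin : ∀ ζ : ℂ, HasFDerivAt (fun ζ : ℂ => x + ζ • v)
      ((1 : ℂ →L[ℂ] ℂ).smulRight v) ζ := by
    intro ζ
    have := ((hasFDerivAt_id (𝕜 := ℂ) ζ).smul_const v).const_add x
    exact this
  have hphd : ∀ ζ ∈ closedBall (0 : ℂ) (h / ‖v‖), DifferentiableAt ℂ ph ζ := by
    intro ζ hζ
    exact (hf _ (hmem ζ hζ)).comp ζ (hlin ζ).differentiableAt
  have hr : 0 < h / ‖v‖ := by positivity
  have hdc : DiffContOnCl ℂ ph (ball 0 (h / ‖v‖)) := by
    refine DifferentiableOn.diffContOnCl ?_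
    intro ζ hζ
    rw [closure_ball _ hr.ne'] at hζ
    exact (hphd ζ hζ).differentiableWithinAt
  have h1 := Complex.norm_deriv_le_of_forall_mem_sphere_norm_le hr hdc
    (C := M) fun ζ hζ => hb _ (hmem ζ (sphere_subset_closedBall hζ))
  have h2 : deriv ph 0 = fderiv ℂ f x v := by
    have hx : x + (0 : ℂ) • v = x := by simp
    have hfx : HasFDerivAt f (fderiv ℂ f x) (x + (0 : ℂ) • v) := by
      rw [hx]; exact (hf x (mem_closedBall_self hh.le)).hasFDerivAt
    have h3 := hfx.comp (0 : ℂ) (hlin 0)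
    have h4 := h3.hasDerivAt.deriv
    have h5 : ph = f ∘ fun ζ : ℂ => x + ζ • v := rfl
    rw [h5, h4]
    simp
  rw [h2] at h1
  calc ‖fderiv ℂ f x v‖ ≤ M / (h / ‖v‖) := h1
    _ = M / h * ‖v‖ := by field_simp

/-- iterated Cauchy estimates -/
theorem iter_bound (k : ℕ) : ∀ {G : Type} [NormedAddCommGroup G] [NormedSpace ℂ G]
    [CompleteSpace G] {f : E → G} {y : E} {R h M : ℝ}, 0 < h → k * h < R →
    (∀ z ∈ ball y R, AnalyticAt ℂ f z) → (∀ z ∈ ball y R, ‖f z‖ ≤ M) →
    ‖iteratedFDeriv ℂ k f y‖ ≤ M / h ^ k := by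
  induction k with
  | zero =>
    intro G _ _ _ f y R h M hh hR hf hb
    simp only [Nat.cast_zero, zero_mul] at hR
    rw [norm_iteratedFDeriv_zero, pow_zero, div_one]
    exact hb y (mem_ball_self hR)
  | succ k ih =>
    intro G _ _ _ f y R h M hh hR hf hb
    rw [← norm_iteratedFDeriv_fderiv]
    have hR' : k * h < R - h := by push_cast at hR; linarith
    have hsub : ∀ z ∈ ball y (R - h), closedBall z h ⊆ ball y R := by
      intro z hz w hw
      rw [mem_ball] at *
      rw [mem_closedBall] at hw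
      calc dist w y ≤ dist w z + dist z y := dist_triangle _ _ _
        _ < h + (R - h) := by linarith
        _ = R := by ring
    have h1 := ih (f := fderiv ℂ f) (y := y) (R := R - h) (h := h) (M := M / h) hh hR'
      (fun z hz => (hf z (hsub z hz (mem_closedBall_self hh.le))).fderiv)
      (fun z hz => fderiv_bound hh (fun w hw => (hf w (hsub z hz hw)).differentiableAt)
        fun w hw => hb w (hsub z hz hw))
    refine h1.trans (le_of_eq ?_)
    rw [pow_succ, div_div]
    congr 1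
    ring

/-- Taylor series as a formal multilinear series -/
noncomputable def tay (f : E → ℂ) (y : E) : FormalMultilinearSeries ℂ E ℂ :=
  fun k => ((k ! : ℂ))⁻¹ • iteratedFDeriv ℂ k f y

theorem tay_bound {f : E → ℂ} {y : E} {R M : ℝ} (hR : 0 < R)
    (hf : ∀ z ∈ ball y R, AnalyticAt ℂ f z) (hb : ∀ z ∈ ball y R, ‖f z‖ ≤ M) (k : ℕ) :
    ‖tay f y k‖ ≤ 3 * M * (3 / R) ^ k := by
  have hM : 0 ≤ M := (norm_nonneg _).trans (hb y (mem_ball_self hR))
  have hk : (0 : ℝ) < k + 1 := by positivity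
  have h1 := iter_bound k (f := f) (y := y) (R := R) (h := R / (k + 1)) (M := M)
    (by positivity) (by
      rw [mul_div_assoc', div_lt_iff₀ hk]
      nlinarith) hf hb
  unfold tay
  rw [norm_smul, norm_inv, Complex.norm_natCast]
  have h2 : ((k : ℝ) + 1) ^ k / k ! ≤ Real.exp (k + 1) :=
    Real.pow_div_factorial_le_exp _ hk.le k
  have h3 : Real.exp (k + 1) ≤ 3 ^ (k + 1) := by
    have : Real.exp ((k : ℝ) + 1) = Real.exp 1 ^ (k + 1) := by
      rw [← Real.exp_nat_mul]; push_cast; ring_nf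
    rw [this]
    have := Real.exp_one_lt_d9
    exact pow_le_pow_left₀ (Real.exp_pos _).le (by linarith) _
  have hkf : (0 : ℝ) < k ! := by exact_mod_cast Nat.factorial_pos k
  calc (k ! : ℝ)⁻¹ * ‖iteratedFDeriv ℂ k f y‖ ≤ (k ! : ℝ)⁻¹ * (M / (R / (k + 1)) ^ k) := by
        gcongr
    _ = M * (((k : ℝ) + 1) ^ k / k !) / R ^ k := by
        rw [div_pow]; field_simp
    _ ≤ M * 3 ^ (k + 1) / R ^ k := by
        have := h2.trans h3
        gcongr
    _ = 3 * M * (3 / R) ^ k := by rw [div_pow, pow_succ]; ring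

theorem tay_hasFPowerSeriesOnBall {f : E → ℂ} {y : E} {R M : ℝ} (hR : 0 < R)
    (hf : ∀ z ∈ ball y R, AnalyticAt ℂ f z) (hb : ∀ z ∈ ball y R, ‖f z‖ ≤ M) :
    ∀ v : E, ‖v‖ < R / 3 → HasSum (fun k => tay f y k (fun _ => v)) (f (y + v)) := by
  have hM : 0 ≤ M := (norm_nonneg _).trans (hb y (mem_ball_self hR))
  set p := tay f y with hp
  have hrad : (ENNReal.ofReal (R / 3)) ≤ p.radius := by
    have := p.le_radius_of_bound (r := (R / 3).toNNReal) (3 * M) (fun n => by
      rw [Real.coe_toNNReal _ (by positivity)]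
      calc ‖p n‖ * (R / 3) ^ n ≤ 3 * M * (3 / R) ^ n * (R / 3) ^ n := by
            gcongr; exact tay_bound hR hf hb n
        _ = 3 * M := by
            rw [mul_assoc, ← mul_pow]
            have : 3 / R * (R / 3) = 1 := by field_simp
            rw [this, one_pow, mul_one])
    exact this
  have hpos : 0 < p.radius := lt_of_lt_of_le (by simpa using hR) hrad
  have hS := (p.hasFPowerSeriesOnBall hpos).comp_sub y
  rw [zero_add] at hS
  have hSan : AnalyticOnNhd ℂ (fun z => p.sum (z - y)) (ball y (R / 3)) := by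
    have h1 := hS.analyticOnNhd
    refine h1.mono fun z hz => ?_
    rw [mem_eball, edist_dist]
    rw [mem_ball] at hz
    exact lt_of_lt_of_le ((ENNReal.ofReal_lt_ofReal_iff (by positivity)).2 hz) hrad
  have hfan : AnalyticOnNhd ℂ f (ball y (R / 3)) := fun z hz =>
    hf z (ball_subset_ball (by linarith) hz)
  have hev : f =ᶠ[𝓝 y] fun z => p.sum (z - y) := by
    obtain ⟨q, r', hq⟩ := hf y (mem_ball_self hR)
    have h1 : ∀ᶠ z in 𝓝 y, z - y ∈ eball (0 : E) r' := by
      have : Tendsto (fun z : E => z - y) (𝓝 y) (𝓝 0) := by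
        have h0 : Continuous fun z : E => z - y := by fun_prop
        have := h0.tendsto y
        simpa using this
      exact this.eventually (eball_mem_nhds _ hq.r_pos)
    filter_upwards [h1] with z hz
    have h2 := hq.hasSum_iteratedFDeriv hz
    rw [add_sub_cancel] at h2
    have h3 : HasSum (fun k => p k (fun _ => z - y)) (f z) := h2
    rw [FormalMultilinearSeries.sum, h3.tsum_eq]
  have hpre : IsPreconnected (ball y (R / 3)) := by
    let _ : NormedSpace ℝ E := NormedSpace.complexToReal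
    exact (convex_ball y (R / 3)).isPreconnected
  have heq := hfan.eqOn_of_preconnected_of_eventuallyEq hSan hpre
    (mem_ball_self (by positivity)) hev
  intro v hv
  have hmem : y + v ∈ ball y (R / 3) := by
    rw [mem_ball, dist_eq_norm, add_sub_cancel_left]; exact hv
  have h1 := heq hmem
  have h2 := hS.hasSum (y := v) (by
    rw [mem_eball, edist_dist, dist_zero_right]
    exact lt_of_lt_of_le ((ENNReal.ofReal_lt_ofReal_iff (by positivity)).2 hv) hrad)
  rw [h1]
  exact h2

/-- Weierstrass M-test for holomorphic functions on a complex normed space. -/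
theorem analyticAt_tsum {f : ℕ → E → ℂ} {y : E} {R : ℝ} (hR : 0 < R) {u : ℕ → ℝ}
    (hu : Summable u) (hf : ∀ n, ∀ z ∈ ball y R, AnalyticAt ℂ (f n) z)
    (hb : ∀ n, ∀ z ∈ ball y R, ‖f n z‖ ≤ u n) :
    AnalyticAt ℂ (fun z => ∑' n, f n z) y := by
  have hu0 : ∀ n, 0 ≤ u n := fun n => (norm_nonneg _).trans (hb n y (mem_ball_self hR))
  have hPb : ∀ n k, ‖tay (f n) y k‖ ≤ 3 * u n * (3 / R) ^ k := fun n k =>
    tay_bound hR (hf n) (hb n) k
  have hPs : ∀ k, Summable fun n => tay (f n) y k := fun k =>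
    Summable.of_norm_bounded ((hu.mul_left 3).mul_right _) fun n => hPb n k
  set p : FormalMultilinearSeries ℂ E ℂ := fun k => ∑' n, tay (f n) y k with hp
  have hpn : ∀ k, ‖p k‖ ≤ 3 * (∑' n, u n) * (3 / R) ^ k := by
    intro k
    have h1 : ‖p k‖ ≤ ∑' n, 3 * u n * (3 / R) ^ k :=
      tsum_of_norm_bounded ((hu.mul_left 3).mul_right _).hasSum fun n => hPb n k
    rw [tsum_mul_right, tsum_mul_left] at h1
    exact h1
  have hU0 : 0 ≤ ∑' n, u n := tsum_nonneg hu0
  refine ⟨p, ENNReal.ofReal (R / 6), ?_⟩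
  refine ⟨?_, by simpa using hR, ?_⟩
  · have := p.le_radius_of_bound (r := (R / 6).toNNReal) (3 * ∑' n, u n) (fun n => by
      rw [Real.coe_toNNReal _ (by positivity)]
      calc ‖p n‖ * (R / 6) ^ n ≤ 3 * (∑' n, u n) * (3 / R) ^ n * (R / 6) ^ n := by
            gcongr; exact hpn n
        _ = 3 * (∑' n, u n) * (1 / 2) ^ n := by
            rw [mul_assoc, ← mul_pow]
            have : 3 / R * (R / 6) = 1 / 2 := by field_simp; norm_num
            rw [this]
        _ ≤ 3 * (∑' n, u n) * 1 := by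
            gcongr
            exact pow_le_one₀ (by norm_num) (by norm_num)
        _ = _ := mul_one _)
    exact this
  · intro v hv
    have hv' : ‖v‖ < R / 6 := by
      rw [mem_eball, edist_dist, dist_zero_right] at hv
      exact (ENNReal.ofReal_lt_ofReal_iff (by positivity)).1 hv
    have hvb : 3 / R * ‖v‖ ≤ 1 / 2 := by
      rw [div_mul_eq_mul_div, div_le_iff₀ hR]; linarith
    set a : ℕ × ℕ → ℂ := fun nk => tay (f nk.1) y nk.2 (fun _ => v) with ha
    have hab : ∀ nk, ‖a nk‖ ≤ 3 * u nk.1 * (1 / 2) ^ nk.2 := by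
      intro nk
      calc ‖a nk‖ ≤ ‖tay (f nk.1) y nk.2‖ * ∏ _i : Fin nk.2, ‖v‖ :=
            ContinuousMultilinearMap.le_opNorm _ _
        _ ≤ 3 * u nk.1 * (3 / R) ^ nk.2 * ‖v‖ ^ nk.2 := by
            rw [Finset.prod_const, Finset.card_univ, Fintype.card_fin]
            gcongr; exact hPb _ _
        _ = 3 * u nk.1 * (3 / R * ‖v‖) ^ nk.2 := by rw [mul_pow]; ring
        _ ≤ 3 * u nk.1 * (1 / 2) ^ nk.2 := by
            have := hu0 nk.1
            gcongr
    have has : Summable a := by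
      refine Summable.of_norm_bounded ?_ hab
      exact (hu.mul_left 3).mul_of_nonneg (summable_geometric_two)
        (fun n => by have := hu0 n; positivity) (fun n => by positivity)
    have h1 : ∀ n, HasSum (fun k => a (n, k)) (f n (y + v)) := fun n =>
      tay_hasFPowerSeriesOnBall hR (hf n) (hb n) v (by linarith)
    have h2 : HasSum (fun n => f n (y + v)) (∑' nk, a nk) :=
      has.hasSum.prod_fiberwise h1
    have h3 : HasSum (fun nk : ℕ × ℕ => a nk.swap) (∑' nk, a nk) := by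
      have := (Equiv.prodComm ℕ ℕ).hasSum_iff (f := a) (a := ∑' nk, a nk)
      exact this.2 has.hasSum
    have h4 : ∀ k, HasSum (fun n => a (n, k)) (p k (fun _ => v)) := by
      intro k
      have h5 := (hPs k).hasSum
      have h6 := (ContinuousMultilinearMap.apply ℂ (fun _ : Fin k => E) ℂ
        (fun _ => v)).hasSum h5
      exact h6
    have h5 : HasSum (fun k => p k (fun _ => v)) (∑' nk, a nk) :=
      h3.prod_fiberwise h4
    rw [h2.tsum_eq]
    exact h5

end Holo


section Basics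

/-- complex null sequences -/
abbrev CE := ZeroAtInftyContinuousMap ℕ ℂ
/-- real null sequences -/
abbrev CX := ZeroAtInftyContinuousMap ℕ ℝ

theorem coe_le_norm {K : Type} [RCLike K] (z : ZeroAtInftyContinuousMap ℕ K) (n : ℕ) :
    ‖z n‖ ≤ ‖z‖ := by
  rw [← ZeroAtInftyContinuousMap.norm_toBCF_eq_norm]
  exact z.toBCF.norm_coe_le_norm n

theorem norm_le_iff {K : Type} [RCLike K] (z : ZeroAtInftyContinuousMap ℕ K) {C : ℝ} (hC : 0 ≤ C) :
    ‖z‖ ≤ C ↔ ∀ n, ‖z n‖ ≤ C := by
  rw [← ZeroAtInftyContinuousMap.norm_toBCF_eq_norm]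
  exact BoundedContinuousFunction.norm_le hC

theorem tendsto_coe {K : Type} [RCLike K] (z : ZeroAtInftyContinuousMap ℕ K) :
    Tendsto (fun n => z n) atTop (𝓝 0) := by
  have := z.zero_at_infty'
  rw [cocompact_eq_cofinite, Nat.cofinite_eq_atTop] at this
  exact this

/-- build a null sequence -/
def mk0 {K : Type} [RCLike K] (a : ℕ → K) (ha : Tendsto a atTop (𝓝 0)) :
    ZeroAtInftyContinuousMap ℕ K where
  toFun := a
  continuous_toFun := continuous_of_discreteTopology
  zero_at_infty' := by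
    rw [cocompact_eq_cofinite, Nat.cofinite_eq_atTop]; exact ha

@[simp] theorem mk0_apply {K : Type} [RCLike K] (a : ℕ → K) (ha : Tendsto a atTop (𝓝 0)) (n : ℕ) :
    mk0 a ha n = a n := rfl

/-- coordinate functional on the complex space -/
noncomputable def ev (n : ℕ) : CE →L[ℂ] ℂ :=
  LinearMap.mkContinuous
    { toFun := fun z => z n
      map_add' := fun _ _ => rfl
      map_smul' := fun _ _ => rfl } 1 (fun z => by rw [one_mul]; exact coe_le_norm z n)

@[simp] theorem ev_apply (n : ℕ) (z : CE) : ev n z = z n := rfl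

/-- the canonical embedding -/
noncomputable def io : CX →L[ℝ] CE :=
  LinearMap.mkContinuous
    { toFun := fun x => mk0 (fun n => ((x n : ℝ) : ℂ)) (by
        have h0 : Tendsto (fun n => ((x n : ℝ) : ℂ)) atTop (𝓝 ((0 : ℝ) : ℂ)) :=
          (Complex.continuous_ofReal.tendsto 0).comp (tendsto_coe x)
        rw [Complex.ofReal_zero] at h0
        exact h0)
      map_add' := fun x y => by ext n; simp
      map_smul' := fun c x => by ext n; simp } 1 (fun x => by
        rw [one_mul, norm_le_iff _ (norm_nonneg _)]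
        intro n
        simp only [LinearMap.coe_mk, AddHom.coe_mk, mk0_apply, Complex.norm_real]
        exact coe_le_norm x n)

@[simp] theorem io_apply (x : CX) (n : ℕ) : io x n = ((x n : ℝ) : ℂ) := rfl

theorem io_norm (x : CX) : ‖io x‖ = ‖x‖ := by
  apply le_antisymm
  · rw [norm_le_iff _ (norm_nonneg _)]
    intro n
    rw [io_apply, Complex.norm_real]
    exact coe_le_norm x n
  · rw [norm_le_iff _ (norm_nonneg _)]
    intro n
    have := coe_le_norm (io x) n
    rw [io_apply, Complex.norm_real] at this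
    exact this

/-- real analyticity from a holomorphic extension -/
theorem analyticAt_real {G : CE → ℂ} {x : CX} (hG : AnalyticAt ℂ G (io x)) :
    AnalyticAt ℝ (fun x => (G (io x)).re) x := by
  have h1 : AnalyticAt ℝ G (io x) := hG.restrictScalars
  have h2 : AnalyticAt ℝ (fun x => G (io x)) x := h1.comp (io.analyticAt x)
  exact (Complex.reCLM.analyticAt _).comp h2

/-- truncation -/
noncomputable def tr (m : ℕ) (x : CX) : CX :=
  mk0 (fun i => if i < m then x i else 0) (by
    refine tendsto_const_nhds.congr' ?_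
    filter_upwards [eventually_ge_atTop m] with i hi
    rw [if_neg (by omega)])

theorem tr_apply (m : ℕ) (x : CX) (i : ℕ) : tr m x i = if i < m then x i else 0 := rfl

/-- padding -/
noncomputable def pad (m : ℕ) : (Fin m → ℝ) →L[ℝ] CX :=
  LinearMap.mkContinuous
    { toFun := fun t => mk0 (fun i => if h : i < m then t ⟨i, h⟩ else 0) (by
        refine tendsto_const_nhds.congr' ?_
        filter_upwards [eventually_ge_atTop m] with i hi
        rw [dif_neg (by omega)])
      map_add' := fun x y => by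
        ext n
        simp only [mk0_apply, ZeroAtInftyContinuousMap.add_apply, Pi.add_apply]
        split_ifs <;> simp
      map_smul' := fun c x => by
        ext n
        simp only [mk0_apply, ZeroAtInftyContinuousMap.smul_apply, Pi.smul_apply, RingHom.id_apply]
        split_ifs <;> simp } 1 (fun x => by
        rw [one_mul, norm_le_iff _ (norm_nonneg _)]
        intro n
        simp only [LinearMap.coe_mk, AddHom.coe_mk, mk0_apply]
        split_ifs with h
        · exact norm_le_pi_norm x ⟨n, h⟩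
        · simp)

theorem pad_apply (m : ℕ) (t : Fin m → ℝ) (i : ℕ) :
    pad m t i = if h : i < m then t ⟨i, h⟩ else 0 := rfl

theorem pad_eq_tr (m : ℕ) (x : CX) : pad m (fun i => x i) = tr m x := by
  ext i
  rw [pad_apply, tr_apply]
  split_ifs <;> rfl

theorem tr_tendsto (x : CX) : Tendsto (fun m => tr m x) atTop (𝓝 x) := by
  rw [Metric.tendsto_atTop]
  intro ε hε
  have h1 := Metric.tendsto_atTop.1 (tendsto_coe x) (ε / 2) (by positivity)
  obtain ⟨N, hN⟩ := h1
  refine ⟨N, fun m hm => ?_⟩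
  rw [dist_eq_norm]
  refine lt_of_le_of_lt ((norm_le_iff (tr m x - x) (C := ε / 2) (by positivity)).2 fun n => ?_)
    (by linarith)
  rw [ZeroAtInftyContinuousMap.sub_apply, tr_apply]
  split_ifs with h
  · simp; positivity
  · have := hN n (by omega)
    rw [dist_eq_norm, sub_zero] at this
    rw [zero_sub, norm_neg]; exact this.le

theorem exists_coord {x : CX} {c : ℝ} (hc : c < ‖x‖) (hc0 : 0 ≤ c) : ∃ i, c < |x i| := by
  by_contra h
  push Not at h
  have := (norm_le_iff x hc0).2 (fun n => h n)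
  linarith

end Basics


section Qfun

/-- the basic separating function, complex version -/
noncomputable def Qc (P : ℕ) (z : CE) : ℂ := ∑' i, (z i) ^ (2 * (P + i + 1))

/-- the basic separating function, real version -/
noncomputable def Qr (P : ℕ) (x : CX) : ℝ := ∑' i, (x i) ^ (2 * (P + i + 1))

theorem Qc_io (P : ℕ) (x : CX) : Qc P (io x) = ((Qr P x : ℝ) : ℂ) := by
  unfold Qc Qr
  rw [Complex.ofReal_tsum]
  simp

/-- domination near a point -/
theorem pow_dom {a : ℕ → ℝ} (ha : Tendsto a atTop (𝓝 0)) (ha0 : ∀ i, 0 ≤ a i) :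
    Summable fun i => a i ^ (2 * (i + 1)) := by
  have h1 : ∀ᶠ i in atTop, a i ≤ 1 / 2 := ha.eventually (ge_mem_nhds (by norm_num))
  obtain ⟨N, hN⟩ := h1.exists_forall_of_atTop
  refine Summable.of_norm_bounded_eventually_nat (g := fun i => (1 / 2 : ℝ) ^ i)
    (summable_geometric_two) ?_
  filter_upwards [eventually_ge_atTop N] with i hi
  rw [Real.norm_of_nonneg (pow_nonneg (ha0 i) _)]
  calc a i ^ (2 * (i + 1)) ≤ (1 / 2) ^ (2 * (i + 1)) := by
        gcongr
        · exact ha0 i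
        · exact hN i hi
    _ ≤ (1 / 2) ^ i := pow_le_pow_of_le_one (by norm_num) (by norm_num) (by omega)

theorem pow_dom' {a : ℕ → ℝ} (P : ℕ) (ha : ∀ᶠ i in atTop, a i ≤ 1 / 2) (ha0 : ∀ i, 0 ≤ a i) :
    Summable fun i => a i ^ (2 * (P + i + 1)) := by
  obtain ⟨N, hN⟩ := ha.exists_forall_of_atTop
  refine Summable.of_norm_bounded_eventually_nat (g := fun i => (1 / 2 : ℝ) ^ i)
    (summable_geometric_two) ?_
  filter_upwards [eventually_ge_atTop N] with i hi
  rw [Real.norm_of_nonneg (pow_nonneg (ha0 i) _)]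
  calc a i ^ (2 * (P + i + 1)) ≤ (1 / 2) ^ (2 * (P + i + 1)) := by
        gcongr
        · exact ha0 i
        · exact hN i hi
    _ ≤ (1 / 2) ^ i := pow_le_pow_of_le_one (by norm_num) (by norm_num) (by omega)

theorem norm_tendsto {K : Type} [RCLike K] (z : ZeroAtInftyContinuousMap ℕ K) :
    Tendsto (fun n => ‖z n‖) atTop (𝓝 0) := by
  have := (tendsto_coe z).norm
  rwa [norm_zero] at this

theorem Q_summable {K : Type} [RCLike K] (P : ℕ) (z : ZeroAtInftyContinuousMap ℕ K) :
    Summable fun i => ‖z i‖ ^ (2 * (P + i + 1)) :=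
  pow_dom' P ((norm_tendsto z).eventually (ge_mem_nhds (by norm_num))) fun _ => norm_nonneg _

theorem Qr_summable (P : ℕ) (x : CX) : Summable fun i => (x i) ^ (2 * (P + i + 1)) := by
  refine Summable.of_norm_bounded (Q_summable P x) fun i => ?_
  rw [norm_pow]

theorem Qr_nonneg (P : ℕ) (x : CX) : 0 ≤ Qr P x :=
  tsum_nonneg fun i => by rw [pow_mul]; positivity

theorem Qr_ge_term (P : ℕ) (x : CX) (i : ℕ) : (x i) ^ (2 * (P + i + 1)) ≤ Qr P x :=
  (Qr_summable P x).le_tsum i fun j _ => by rw [pow_mul]; positivity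

theorem Qr_ge_one (P : ℕ) (x : CX) {i : ℕ} (hi : 1 ≤ |x i|) : 1 ≤ Qr P x := by
  refine le_trans ?_ (Qr_ge_term P x i)
  rw [← Even.pow_abs (even_two_mul _)]
  exact one_le_pow₀ hi

theorem Qc_bound (P : ℕ) (z : CE) : ‖Qc P z‖ ≤ ∑' i, ‖z i‖ ^ (2 * (P + i + 1)) := by
  unfold Qc
  refine (norm_tsum_le_tsum_norm ?_).trans (le_of_eq ?_)
  · simpa only [norm_pow] using Q_summable P z
  · simp only [norm_pow]

theorem Q_small {K : Type} [RCLike K] (P : ℕ) (z : ZeroAtInftyContinuousMap ℕ K)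
    (h : ∀ i, ‖z i‖ ≤ 1 / 2) :
    ∑' i, ‖z i‖ ^ (2 * (P + i + 1)) ≤ (1 / 4) ^ P * (1 / 3) := by
  have hs : Summable fun i : ℕ => (1 / 4 : ℝ) ^ P * ((1 / 4) * (1 / 4) ^ i) :=
    ((summable_geometric_of_lt_one (by norm_num) (by norm_num)).mul_left _).mul_left _
  calc ∑' i, ‖z i‖ ^ (2 * (P + i + 1)) ≤ ∑' i : ℕ, (1 / 4 : ℝ) ^ P * ((1 / 4) * (1 / 4) ^ i) := by
        refine (Q_summable P z).tsum_le_tsum (fun i => ?_) hs
        calc ‖z i‖ ^ (2 * (P + i + 1)) ≤ (1 / 2) ^ (2 * (P + i + 1)) := by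
              gcongr; exact h i
          _ = (1 / 4 : ℝ) ^ P * ((1 / 4) * (1 / 4) ^ i) := by
              rw [pow_mul, ← pow_succ', ← pow_add]; norm_num; ring_nf
    _ = (1 / 4) ^ P * (1 / 3) := by
        rw [tsum_mul_left, tsum_mul_left, tsum_geometric_of_lt_one (by norm_num) (by norm_num)]
        norm_num

theorem Qc_small (P : ℕ) (z : CE) (h : ∀ i, ‖z i‖ ≤ 1 / 2) :
    ‖Qc P z‖ ≤ (1 / 4) ^ P * (1 / 3) := (Qc_bound P z).trans (Q_small P z h)

theorem Qr_small (x : CX) (h : ∀ i, |x i| ≤ 1 / 2) : Qr 0 x ≤ 1 / 3 := by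
  have h1 : Qr 0 x ≤ ∑' i, ‖x i‖ ^ (2 * (0 + i + 1)) := by
    refine (Qr_summable 0 x).tsum_le_tsum (fun i => ?_) (Q_summable 0 x)
    rw [← norm_pow]; exact Real.le_norm_self _
  have h2 := Q_small 0 x h
  rw [pow_zero, one_mul] at h2
  exact h1.trans h2

theorem Qc_analytic (P : ℕ) (y : CE) : AnalyticAt ℂ (Qc P) y := by
  unfold Qc
  have hsum : Summable fun i => (‖y i‖ + 1 / 4) ^ (2 * (P + i + 1)) := by
    refine pow_dom' P ?_ fun i => by positivity
    have := (norm_tendsto y).add_const (1 / 4)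
    exact this.eventually (ge_mem_nhds (by norm_num))
  refine analyticAt_tsum (R := 1 / 4) (by norm_num) hsum (fun n z _ => ?_) (fun n z hz => ?_)
  · exact ((ev n).analyticAt z).pow _
  · rw [norm_pow]
    gcongr
    rw [mem_ball, dist_eq_norm] at hz
    have h1 : ‖(z - y) n‖ ≤ ‖z - y‖ := coe_le_norm _ n
    rw [ZeroAtInftyContinuousMap.sub_apply] at h1
    have h2 : z n = y n + (z n - y n) := by ring
    calc ‖z n‖ = ‖y n + (z n - y n)‖ := by rw [← h2]
      _ ≤ ‖y n‖ + ‖z n - y n‖ := norm_add_le _ _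
      _ ≤ ‖y n‖ + 1 / 4 := by linarith

end Qfun


section Poly

/-- polynomial in the first `m` coordinates, complex version -/
noncomputable def pc {m : ℕ} (p : MvPolynomial (Fin m) ℝ) (z : CE) : ℂ :=
  MvPolynomial.aeval (fun i : Fin m => z i) p

/-- polynomial in the first `m` coordinates, real version -/
noncomputable def pr {m : ℕ} (p : MvPolynomial (Fin m) ℝ) (x : CX) : ℝ :=
  MvPolynomial.eval (fun i : Fin m => x i) p

theorem pc_io {m : ℕ} (p : MvPolynomial (Fin m) ℝ) (x : CX) :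
    pc p (io x) = ((pr p x : ℝ) : ℂ) := by
  unfold pc pr
  induction p using MvPolynomial.induction_on with
  | C a => simp
  | add p q hp hq => simp only [map_add, Complex.ofReal_add] at *; rw [hp, hq]
  | mul_X p i hp => simp only [map_mul, MvPolynomial.aeval_X, MvPolynomial.eval_X,
      Complex.ofReal_mul, io_apply] at *; rw [hp]

theorem pc_analytic {m : ℕ} (p : MvPolynomial (Fin m) ℝ) (z : CE) : AnalyticAt ℂ (pc p) z := by
  unfold pc
  induction p using MvPolynomial.induction_on with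
  | C a => simp only [MvPolynomial.algHom_C]; exact analyticAt_const
  | add p q hp hq => simp only [map_add]; exact hp.add hq
  | mul_X p i hp =>
    simp only [map_mul, MvPolynomial.aeval_X]
    exact hp.mul ((ev i).analyticAt z)

theorem pc_bdd {m : ℕ} (p : MvPolynomial (Fin m) ℝ) (R : ℝ) (hR : 0 ≤ R) :
    ∃ C : ℝ, 0 ≤ C ∧ ∀ z : CE, ‖z‖ ≤ R → ‖pc p z‖ ≤ C := by
  unfold pc
  induction p using MvPolynomial.induction_on with
  | C a =>
    refine ⟨‖a‖, norm_nonneg _, fun z _ => ?_⟩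
    simp
  | add p q hp hq =>
    obtain ⟨C, hC, h1⟩ := hp
    obtain ⟨D, hD, h2⟩ := hq
    refine ⟨C + D, by positivity, fun z hz => ?_⟩
    rw [map_add]
    exact (norm_add_le _ _).trans (add_le_add (h1 z hz) (h2 z hz))
  | mul_X p i hp =>
    obtain ⟨C, hC, h1⟩ := hp
    refine ⟨C * R, by positivity, fun z hz => ?_⟩
    rw [map_mul, MvPolynomial.aeval_X, norm_mul]
    exact mul_le_mul (h1 z hz) ((coe_le_norm z _).trans hz) (norm_nonneg _) hC

theorem exists_poly (m : ℕ) (u : CX → ℝ) (hu : Continuous u) {ε : ℝ} (hε : 0 < ε) :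
    ∃ p : MvPolynomial (Fin m) ℝ, ∀ x : CX, ‖x‖ ≤ m → |pr p x - u (tr m x)| < ε := by
  set ph : MvPolynomial (Fin m) ℝ →ₐ[ℝ] C(Fin m → ℝ, ℝ) :=
    MvPolynomial.aeval (fun i => (⟨fun t => t i, continuous_apply i⟩ : C(Fin m → ℝ, ℝ))) with hph
  have hphe : ∀ p t, ph p t = MvPolynomial.eval t p := by
    intro p t
    induction p using MvPolynomial.induction_on with
    | C a => simp [hph]
    | add p q hp hq => rw [map_add, map_add, ContinuousMap.add_apply, hp, hq]
    | mul_X p i hp =>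
      rw [map_mul, map_mul, ContinuousMap.mul_apply, hp, MvPolynomial.eval_X, hph,
        MvPolynomial.aeval_X]
      rfl
  have hsep : (ph.range).SeparatesPoints := by
    intro s t hst
    have : ∃ i, s i ≠ t i := by
      by_contra h
      push Not at h
      exact hst (funext h)
    obtain ⟨i, hi⟩ := this
    refine ⟨ph (MvPolynomial.X i), ⟨ph (MvPolynomial.X i), ⟨MvPolynomial.X i, rfl⟩, rfl⟩, ?_⟩
    rw [hphe, hphe, MvPolynomial.eval_X, MvPolynomial.eval_X]
    exact hi
  have hK : IsCompact (closedBall (0 : Fin m → ℝ) (m : ℝ)) := isCompact_closedBall _ _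
  obtain ⟨g, hg, h⟩ := ContinuousMap.exists_mem_subalgebra_near_continuous_of_isCompact_of_separatesPoints
    hsep (⟨fun t => u (pad m t), hu.comp (pad m).continuous⟩ : C(Fin m → ℝ, ℝ)) hK hε
  obtain ⟨p, rfl⟩ := hg
  refine ⟨p, fun x hx => ?_⟩
  have hmem : (fun i : Fin m => x i) ∈ closedBall (0 : Fin m → ℝ) (m : ℝ) := by
    rw [mem_closedBall, dist_zero_right, pi_norm_le_iff_of_nonneg (Nat.cast_nonneg m)]
    intro i
    exact (coe_le_norm x i).trans hx
  have h1 := h _ hmem
  have h2 : (ph p) (fun i : Fin m => x i) = pr p x := hphe p _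
  rw [Real.norm_eq_abs] at h1
  have h3 : (⟨fun t => u (pad m t), hu.comp (pad m).continuous⟩ : C(Fin m → ℝ, ℝ))
      (fun i : Fin m => x i) = u (tr m x) := by
    show u (pad m (fun i : Fin m => x i)) = u (tr m x)
    rw [pad_eq_tr]
  rw [h3] at h1
  rw [← h2]
  exact h1

end Poly


section Rfun

/-- locally bounded above functions are dominated by `1 / r` with `r` a positive Lipschitz
function -/
theorem exists_r (ph : CX → ℝ) (hph : ∀ x, ∃ s : ℝ, 0 < s ∧ ∃ C : ℝ, ∀ y, ‖x - y‖ < s → ph y ≤ C) :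
    ∃ r : CX → ℝ, (∀ x, 0 < r x) ∧ (∀ x, r x ≤ 1) ∧ (∀ x y, r x ≤ r y + ‖x - y‖) ∧
      ∀ x, ph x * r x ≤ 1 := by
  set q : CX → CX → ℝ := fun x y => 1 / max (ph y) 1 + ‖x - y‖ with hq
  have hm : ∀ y, 1 ≤ max (ph y) 1 := fun y => le_max_right _ _
  have hq0 : ∀ x y, 0 ≤ q x y := fun x y => by
    have := hm y
    simp only [hq]; positivity
  have hbdd : ∀ x, BddBelow (range (q x)) := fun x => ⟨0, by rintro _ ⟨y, rfl⟩; exact hq0 x y⟩
  refine ⟨fun x => ⨅ y, q x y, fun x => ?_, fun x => ?_, fun x y => ?_, fun x => ?_⟩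
  · obtain ⟨s, hs, C, hC⟩ := hph x
    have h1 : 0 < min s (1 / max C 1) := by
      have : (1 : ℝ) ≤ max C 1 := le_max_right _ _
      positivity
    refine lt_of_lt_of_le h1 (le_ciInf fun y => ?_)
    rcases lt_or_ge ‖x - y‖ s with h | h
    · refine (min_le_right _ _).trans ?_
      have h2 := hC y h
      have h3 : max (ph y) 1 ≤ max C 1 := max_le_max h2 le_rfl
      have h4 : 1 / max C 1 ≤ 1 / max (ph y) 1 :=
        one_div_le_one_div_of_le (by have := hm y; linarith) h3
      simp only [hq]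
      have := norm_nonneg (x - y)
      linarith
    · refine (min_le_left _ _).trans ?_
      simp only [hq]
      have : 0 ≤ 1 / max (ph y) 1 := by have := hm y; positivity
      linarith
  · refine (ciInf_le (hbdd x) x).trans ?_
    simp only [hq, sub_self, norm_zero, add_zero]
    rw [div_le_one (by have := hm x; linarith)]
    exact hm x
  · rw [← sub_le_iff_le_add]
    refine le_ciInf fun w => ?_
    rw [sub_le_iff_le_add]
    refine (ciInf_le (hbdd x) w).trans ?_
    simp only [hq]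
    have := norm_sub_le_norm_sub_add_norm_sub x y w
    linarith
  · have h1 : (⨅ y, q x y) ≤ 1 / max (ph x) 1 := by
      refine (ciInf_le (hbdd x) x).trans ?_
      simp only [hq, sub_self, norm_zero, add_zero]; exact le_rfl
    have h0 : 0 ≤ ⨅ y, q x y := Real.iInf_nonneg fun y => hq0 x y
    have h2 := hm x
    calc ph x * (⨅ y, q x y) ≤ max (ph x) 1 * (⨅ y, q x y) :=
          mul_le_mul_of_nonneg_right (le_max_left _ _) h0
      _ ≤ max (ph x) 1 * (1 / max (ph x) 1) := mul_le_mul_of_nonneg_left h1 (by linarith)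
      _ = 1 := by field_simp

theorem r_cont {r : CX → ℝ} (hL : ∀ x y, r x ≤ r y + ‖x - y‖) : Continuous r := by
  have : LipschitzWith 1 r := by
    refine LipschitzWith.of_dist_le_mul fun x y => ?_
    rw [Real.dist_eq, abs_le, NNReal.coe_one, one_mul, dist_eq_norm]
    have h1 := hL x y
    have h2 := hL y x
    rw [norm_sub_rev y x] at h2
    constructor <;> linarith
  exact this.continuous

theorem r_inf {r : CX → ℝ} (h0 : ∀ x, 0 < r x) (hL : ∀ x y, r x ≤ r y + ‖x - y‖) (m : ℕ) :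
    ∃ c : ℝ, 0 < c ∧ ∀ x : CX, ‖x‖ ≤ m → c ≤ r (tr m x) := by
  have hK : IsCompact (closedBall (0 : Fin m → ℝ) (m : ℝ)) := isCompact_closedBall _ _
  have hne : (closedBall (0 : Fin m → ℝ) (m : ℝ)).Nonempty :=
    ⟨0, mem_closedBall_self (Nat.cast_nonneg m)⟩
  have hc : Continuous fun t : Fin m → ℝ => r (pad m t) := (r_cont hL).comp (pad m).continuous
  obtain ⟨t, _, ht⟩ := hK.exists_isMinOn hne hc.continuousOn
  refine ⟨r (pad m t), h0 _, fun x hx => ?_⟩
  have hmem : (fun i : Fin m => x i) ∈ closedBall (0 : Fin m → ℝ) (m : ℝ) := by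
    rw [mem_closedBall, dist_zero_right, pi_norm_le_iff_of_nonneg (Nat.cast_nonneg m)]
    intro i
    exact (coe_le_norm x i).trans hx
  have := ht hmem
  rw [← pad_eq_tr]
  exact this

end Rfun

section Data

/-- the data of all stages of the recursion -/
structure SD (r : CX → ℝ) where
  Gam : ℝ
  Gam_pos : 0 < Gam
  Gam_ge : ∀ x : CX, ‖x‖ ≤ 1 → 4 ≤ Gam * r (tr 1 x)
  h : ∀ m : ℕ, MvPolynomial (Fin (m + 1)) ℝ
  rho : ∀ m : ℕ, MvPolynomial (Fin (m + 1)) ℝ
  P : ℕ → ℕ
  h_ge : ∀ (m : ℕ) (x : CX), ‖x‖ ≤ m + 1 → 16 ≤ pr (h m) x ^ 2 * r (tr (m + 1) x)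
  h_le : ∀ (m : ℕ) (x : CX), ‖x‖ ≤ m + 1 → pr (h m) x ^ 2 * r (tr (m + 1) x) ≤ 36
  rho_ge : ∀ (m : ℕ) (x : CX), ‖x‖ ≤ m + 1 → r (tr (m + 1) x) ≤ 16 * pr (rho m) x
  rho_le : ∀ (m : ℕ) (x : CX), ‖x‖ ≤ m + 1 → 8 * pr (rho m) x ≤ r (tr (m + 1) x)
  P_pos : ∀ m, 1 ≤ P m
  bnd : ∀ (m : ℕ) (z : CE), ‖z‖ ≤ m + 1 →
    ‖pc (h m) z‖ ^ 2 * Real.exp (((m + 1) * ‖pc (rho m) z‖) ^ (2 * (m + 1))) *
      (4 * (1 / 4) ^ P m) ≤ (1 / 2) ^ m

theorem exists_SD {r : CX → ℝ} (h0 : ∀ x, 0 < r x) (h1 : ∀ x, r x ≤ 1)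
    (hL : ∀ x y, r x ≤ r y + ‖x - y‖) : Nonempty (SD r) := by
  have hrc := r_cont hL
  choose c hc0 hc using r_inf h0 hL
  have hh : ∀ m : ℕ, ∃ p : MvPolynomial (Fin (m + 1)) ℝ, ∀ x : CX, ‖x‖ ≤ m + 1 →
      16 ≤ pr p x ^ 2 * r (tr (m + 1) x) ∧ pr p x ^ 2 * r (tr (m + 1) x) ≤ 36 := by
    intro m
    obtain ⟨p, hp⟩ := exists_poly (m + 1) (fun x => 5 / √(r x))
      (continuous_const.div (Real.continuous_sqrt.comp hrc)
        fun x => (Real.sqrt_pos.2 (h0 x)).ne') one_pos
    refine ⟨p, fun x hx => ?_⟩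
    have h2 := abs_lt.1 (hp x (by push_cast; exact hx))
    set s := √(r (tr (m + 1) x)) with hs
    have hs0 : 0 < s := Real.sqrt_pos.2 (h0 _)
    have hs1 : s ≤ 1 := by
      rw [hs]; exact Real.sqrt_le_one.2 (h1 _)
    have hss : r (tr (m + 1) x) = s * s := (Real.mul_self_sqrt (h0 _).le).symm
    have h3 : (5 / s) * s = 5 := by field_simp
    have h4 : 4 ≤ pr p x * s := by nlinarith [h2.1]
    have h5 : pr p x * s ≤ 6 := by nlinarith [h2.2]
    have h6 : pr p x ^ 2 * r (tr (m + 1) x) = (pr p x * s) ^ 2 := by rw [hss]; ring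
    rw [h6]
    constructor <;> nlinarith
  have hrho : ∀ m : ℕ, ∃ p : MvPolynomial (Fin (m + 1)) ℝ, ∀ x : CX, ‖x‖ ≤ m + 1 →
      r (tr (m + 1) x) ≤ 16 * pr p x ∧ 8 * pr p x ≤ r (tr (m + 1) x) := by
    intro m
    obtain ⟨p, hp⟩ := exists_poly (m + 1) (fun x => 3 / 32 * r x)
      (continuous_const.mul hrc) (ε := c (m + 1) / 32) (by have := hc0 (m + 1); positivity)
    refine ⟨p, fun x hx => ?_⟩
    have hx' : ‖x‖ ≤ ((m + 1 : ℕ) : ℝ) := by push_cast; exact hx
    have h2 := abs_lt.1 (hp x hx')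
    have h3 := hc (m + 1) x hx'
    constructor <;> linarith [h2.1, h2.2]
  choose h hhh using hh
  choose rho hrho' using hrho
  have hP : ∀ m : ℕ, ∃ P : ℕ, 1 ≤ P ∧ ∀ z : CE, ‖z‖ ≤ m + 1 →
      ‖pc (h m) z‖ ^ 2 * Real.exp (((m + 1) * ‖pc (rho m) z‖) ^ (2 * (m + 1))) *
      (4 * (1 / 4) ^ P) ≤ (1 / 2) ^ m := by
    intro m
    obtain ⟨C, hC, hC'⟩ := pc_bdd (h m) (m + 1) (by positivity)
    obtain ⟨D, hD, hD'⟩ := pc_bdd (rho m) (m + 1) (by positivity)
    set B : ℝ := C ^ 2 * Real.exp (((m + 1) * D) ^ (2 * (m + 1))) with hB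
    have hB0 : 0 ≤ B := by positivity
    have ht : Tendsto (fun P : ℕ => B * (4 * (1 / 4 : ℝ) ^ P)) atTop (𝓝 (B * (4 * 0))) :=
      ((tendsto_pow_atTop_nhds_zero_of_lt_one (by norm_num) (by norm_num)).const_mul 4).const_mul B
    rw [mul_zero, mul_zero] at ht
    have hpos : (0 : ℝ) < (1 / 2) ^ m := by positivity
    obtain ⟨P, hP1, hP2⟩ := ((ht.eventually (ge_mem_nhds hpos)).and (eventually_ge_atTop 1)).exists
    refine ⟨P, hP2, fun z hz => le_trans ?_ hP1⟩
    have e1 := hC' z hz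
    have e2 := hD' z hz
    rw [hB]
    gcongr
  choose P hP1 hP2 using hP
  refine ⟨⟨4 / c 1, by have := hc0 1; positivity, fun x hx => ?_, h, rho, P,
    fun m x hx => (hhh m x hx).1, fun m x hx => (hhh m x hx).2,
    fun m x hx => (hrho' m x hx).1, fun m x hx => (hrho' m x hx).2, hP1, hP2⟩⟩
  have h2 := hc 1 x (by simpa using hx)
  have h3 := hc0 1
  rw [div_mul_eq_mul_div, le_div_iff₀ h3]
  nlinarith

end Data


section Rec

variable {r : CX → ℝ} (S : SD r)

/-- the real recursion -/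
noncomputable def gR : ℕ → CX → ℝ
  | 0, _ => S.Gam
  | m + 1, x => gR m x + pr (S.h m) x ^ 2 *
      Real.exp (-(gR m x * pr (S.rho m) x) ^ (2 * (m + 1))) *
      (1 - Real.exp (-((gR m x * x m) ^ (2 * S.P m) + Qr (S.P m) ((2 / ((m : ℝ) + 1)) • x))))

/-- the complex recursion -/
noncomputable def gC : ℕ → CE → ℂ
  | 0, _ => S.Gam
  | m + 1, z => gC m z + pc (S.h m) z ^ 2 *
      Complex.exp (-(gC m z * pc (S.rho m) z) ^ (2 * (m + 1))) *
      (1 - Complex.exp (-((gC m z * z m) ^ (2 * S.P m) +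
        Qc (S.P m) (((2 / ((m : ℝ) + 1) : ℝ) : ℂ) • z))))

theorem io_smul (a : ℝ) (x : CX) : io (a • x) = (a : ℂ) • io x := by
  ext n; simp

theorem gC_io (m : ℕ) (x : CX) : gC S m (io x) = ((gR S m x : ℝ) : ℂ) := by
  induction m with
  | zero => rfl
  | succ m ih =>
    simp only [gC, gR]
    rw [ih, pc_io, pc_io, ← io_smul, Qc_io, io_apply]
    push_cast
    rfl

theorem gC_analytic (m : ℕ) (z : CE) : AnalyticAt ℂ (gC S m) z := by
  induction m generalizing z with
  | zero =>
    have : gC S 0 = fun _ => (S.Gam : ℂ) := rfl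
    rw [this]; exact analyticAt_const
  | succ m ih =>
    have hz := ih z
    have h1 : AnalyticAt ℂ (fun z => Complex.exp (-(gC S m z * pc (S.rho m) z) ^ (2 * (m + 1)))) z :=
      ((hz.mul (pc_analytic (S.rho m) z)).pow _).neg.cexp
    have hsm : AnalyticAt ℂ (fun z : CE => ((2 / ((m : ℝ) + 1) : ℝ) : ℂ) • z) z :=
      ((((2 / ((m : ℝ) + 1) : ℝ) : ℂ) • ContinuousLinearMap.id ℂ CE).analyticAt z)
    have hQ : AnalyticAt ℂ (fun z : CE => Qc (S.P m) (((2 / ((m : ℝ) + 1) : ℝ) : ℂ) • z)) z :=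
      (Qc_analytic (S.P m) _).comp hsm
    have h2 : AnalyticAt ℂ (fun z => Complex.exp (-((gC S m z * z m) ^ (2 * S.P m) +
        Qc (S.P m) (((2 / ((m : ℝ) + 1) : ℝ) : ℂ) • z)))) z :=
      (((hz.mul ((ev m).analyticAt z)).pow _).add hQ).neg.cexp
    exact hz.add ((((pc_analytic (S.h m) z).pow 2).mul h1).mul (analyticAt_const.sub h2))

/-- the real increments -/
noncomputable def dR (m : ℕ) (x : CX) : ℝ := pr (S.h m) x ^ 2 *
      Real.exp (-(gR S m x * pr (S.rho m) x) ^ (2 * (m + 1))) *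
      (1 - Real.exp (-((gR S m x * x m) ^ (2 * S.P m) + Qr (S.P m) ((2 / ((m : ℝ) + 1)) • x))))

theorem gR_succ (m : ℕ) (x : CX) : gR S (m + 1) x = gR S m x + dR S m x := rfl

/-- the complex increments -/
noncomputable def dC (m : ℕ) (z : CE) : ℂ := pc (S.h m) z ^ 2 *
      Complex.exp (-(gC S m z * pc (S.rho m) z) ^ (2 * (m + 1))) *
      (1 - Complex.exp (-((gC S m z * z m) ^ (2 * S.P m) +
        Qc (S.P m) (((2 / ((m : ℝ) + 1) : ℝ) : ℂ) • z))))

theorem gC_succ (m : ℕ) (z : CE) : gC S (m + 1) z = gC S m z + dC S m z := rfl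

theorem dC_io (m : ℕ) (x : CX) : dC S m (io x) = ((dR S m x : ℝ) : ℂ) := by
  have h1 := gC_succ S m (io x)
  rw [gC_io, gC_io, gR_succ] at h1
  push_cast at h1
  exact (add_left_cancel h1).symm

theorem dC_analytic (m : ℕ) (z : CE) : AnalyticAt ℂ (dC S m) z := by
  have : dC S m = fun z => gC S (m + 1) z - gC S m z := by
    funext z; rw [gC_succ]; ring
  rw [this]
  exact (gC_analytic S (m + 1) z).sub (gC_analytic S m z)

theorem trig_nonneg (m : ℕ) (x : CX) :
    0 ≤ (gR S m x * x m) ^ (2 * S.P m) + Qr (S.P m) ((2 / ((m : ℝ) + 1)) • x) := by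
  have h1 : 0 ≤ (gR S m x * x m) ^ (2 * S.P m) := by rw [pow_mul]; positivity
  exact add_nonneg h1 (Qr_nonneg _ _)

theorem dR_nonneg (m : ℕ) (x : CX) : 0 ≤ dR S m x := by
  unfold dR
  have h1 := trig_nonneg S m x
  have h2 : Real.exp (-((gR S m x * x m) ^ (2 * S.P m) +
      Qr (S.P m) ((2 / ((m : ℝ) + 1)) • x))) ≤ 1 := Real.exp_le_one_iff.2 (by linarith)
  have h3 := Real.exp_pos (-(gR S m x * pr (S.rho m) x) ^ (2 * (m + 1)))
  have h4 : 0 ≤ 1 - Real.exp (-((gR S m x * x m) ^ (2 * S.P m) +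
      Qr (S.P m) ((2 / ((m : ℝ) + 1)) • x))) := by linarith
  positivity

theorem gR_mono {m n : ℕ} (h : m ≤ n) (x : CX) : gR S m x ≤ gR S n x := by
  induction n, h using Nat.le_induction with
  | base => exact le_rfl
  | succ n _ ih =>
    rw [gR_succ]
    have := dR_nonneg S n x
    linarith

theorem gR_ge (m : ℕ) (x : CX) : S.Gam ≤ gR S m x := gR_mono S (Nat.zero_le m) x

theorem gR_pos (m : ℕ) (x : CX) : 0 < gR S m x := lt_of_lt_of_le S.Gam_pos (gR_ge S m x)

theorem dR_le (m : ℕ) (x : CX) : dR S m x ≤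
    pr (S.h m) x ^ 2 * Real.exp (-(gR S m x * pr (S.rho m) x) ^ (2 * (m + 1))) := by
  unfold dR
  have h3 := Real.exp_pos (-((gR S m x * x m) ^ (2 * S.P m) +
      Qr (S.P m) ((2 / ((m : ℝ) + 1)) • x)))
  have h4 := Real.exp_pos (-(gR S m x * pr (S.rho m) x) ^ (2 * (m + 1)))
  refine mul_le_of_le_one_right (by positivity) (by linarith)

/-- a triggered update gives the lower bound -/
theorem trigger (h0 : ∀ x, 0 < r x) (m : ℕ) (x : CX) (hx : ‖x‖ ≤ m + 1)
    (ht : 1 ≤ |gR S m x * x m| ∨ ∃ i, ((m : ℝ) + 1) / 2 ≤ |x i|) :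
    4 ≤ gR S (m + 1) x * r (tr (m + 1) x) := by
  have hg := gR_pos S m x
  have hr := h0 (tr (m + 1) x)
  have hd := dR_nonneg S m x
  rw [gR_succ]
  set a := gR S m x with ha
  set w := (a * x m) ^ (2 * S.P m) + Qr (S.P m) ((2 / ((m : ℝ) + 1)) • x) with hw
  have hm : (0 : ℝ) < (m : ℝ) + 1 := by positivity
  have hw1 : 1 ≤ w := by
    have e1 : 0 ≤ (a * x m) ^ (2 * S.P m) := by rw [pow_mul]; positivity
    have e2 := Qr_nonneg (S.P m) ((2 / ((m : ℝ) + 1)) • x)
    rcases ht with ht | ⟨i, hi⟩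
    · have : 1 ≤ (a * x m) ^ (2 * S.P m) := by
        rw [← Even.pow_abs (even_two_mul _)]
        exact one_le_pow₀ ht
      linarith
    · have : 1 ≤ Qr (S.P m) ((2 / ((m : ℝ) + 1)) • x) := by
        refine Qr_ge_one _ _ (i := i) ?_
        rw [ZeroAtInftyContinuousMap.smul_apply, smul_eq_mul, abs_mul, abs_of_pos (by positivity)]
        rw [div_mul_eq_mul_div, le_div_iff₀ hm]
        linarith
      linarith
  have hew : Real.exp (-w) ≤ 1 / 2 := by
    have h1 : Real.exp (-w) ≤ Real.exp (-1) := Real.exp_le_exp.2 (by linarith)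
    have h2 : Real.exp (-1) ≤ 1 / 2 := by
      rw [Real.exp_neg, one_div]
      have := Real.add_one_le_exp 1
      exact inv_anti₀ (by norm_num) (by linarith)
    linarith
  rcases le_or_gt (1 / 2) (a * pr (S.rho m) x) with h | h
  · have h3 := S.rho_le m x hx
    have h4 : a * (8 * pr (S.rho m) x) ≤ a * r (tr (m + 1) x) :=
      mul_le_mul_of_nonneg_left h3 hg.le
    have h5 : 0 ≤ dR S m x * r (tr (m + 1) x) := mul_nonneg hd hr.le
    nlinarith
  · have h3 := S.rho_ge m x hx
    have hrho : 0 ≤ pr (S.rho m) x := by linarith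
    have h4 : 0 ≤ a * pr (S.rho m) x := mul_nonneg hg.le hrho
    have h5 : (a * pr (S.rho m) x) ^ (2 * (m + 1)) ≤ 1 / 4 := by
      calc (a * pr (S.rho m) x) ^ (2 * (m + 1)) ≤ (1 / 2) ^ (2 * (m + 1)) := by
            gcongr
        _ ≤ (1 / 2) ^ 2 := pow_le_pow_of_le_one (by norm_num) (by norm_num) (by omega)
        _ = 1 / 4 := by norm_num
    have h6 : 3 / 4 ≤ Real.exp (-(a * pr (S.rho m) x) ^ (2 * (m + 1))) := by
      have := Real.add_one_le_exp (-(a * pr (S.rho m) x) ^ (2 * (m + 1)))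
      linarith
    have h7 := S.h_ge m x hx
    have h8 : dR S m x * r (tr (m + 1) x) ≥ 6 := by
      have : dR S m x * r (tr (m + 1) x) = (pr (S.h m) x ^ 2 * r (tr (m + 1) x)) *
          (Real.exp (-(a * pr (S.rho m) x) ^ (2 * (m + 1))) * (1 - Real.exp (-w))) := by
        unfold dR; ring
      rw [this]
      have h9 : 3 / 8 ≤ Real.exp (-(a * pr (S.rho m) x) ^ (2 * (m + 1))) *
          (1 - Real.exp (-w)) := by nlinarith
      nlinarith
    have h10 : 0 < a * r (tr (m + 1) x) := mul_pos hg hr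
    nlinarith

/-- the invariant of the recursion -/
def Inv (m : ℕ) (x : CX) : Prop :=
  ∃ i, i ≤ m ∧ 4 ≤ gR S i x * r (tr i x) ∧ ∀ j, i ≤ j → j < m → 4 * |x j| ≤ r (tr i x)

theorem Inv_succ (h0 : ∀ x, 0 < r x) {m : ℕ} {x : CX} (hx : ‖x‖ ≤ m + 1) (hI : Inv S m x) :
    Inv S (m + 1) x := by
  rcases le_or_gt 1 |gR S m x * x m| with h | h
  · exact ⟨m + 1, le_rfl, trigger S h0 m x hx (Or.inl h), fun j h1 h2 => by omega⟩
  · obtain ⟨i, hi, h1, h2⟩ := hI
    refine ⟨i, by omega, h1, fun j h3 h4 => ?_⟩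
    rcases Nat.lt_succ_iff_lt_or_eq.1 h4 with h5 | h5
    · exact h2 j h3 h5
    · subst h5
      rw [abs_mul, abs_of_pos (gR_pos S j x)] at h
      have h6 := gR_mono S h3 x
      have h7 := h0 (tr i x)
      have h8 : 4 ≤ gR S j x * r (tr i x) := h1.trans (mul_le_mul_of_nonneg_right h6 h7.le)
      have h9 := abs_nonneg (x j)
      have h10 := gR_pos S j x
      by_contra hcon
      push Not at hcon
      have : gR S j x * r (tr i x) < gR S j x * (4 * |x j|) := mul_lt_mul_of_pos_left hcon h10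
      nlinarith

theorem Inv_ev (h0 : ∀ x, 0 < r x) (x : CX) : ∃ N : ℕ, ∀ m, N ≤ m → Inv S m x := by
  have key : ∃ N : ℕ, ‖x‖ ≤ N ∧ Inv S N x := by
    rcases le_or_gt ‖x‖ 1 with h | h
    · refine ⟨1, by simpa using h, 1, le_rfl, ?_, fun j h1 h2 => by omega⟩
      have h1 := S.Gam_ge x h
      exact h1.trans (mul_le_mul_of_nonneg_right (gR_ge S 1 x) (h0 _).le)
    · obtain ⟨N, hN⟩ := Nat.exists_eq_succ_of_ne_zero (n := ⌈‖x‖⌉₊) (by
        have := Nat.lt_ceil (n := 0) (a := ‖x‖)
        rw [Nat.cast_zero] at this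
        have := this.2 (by linarith)
        omega)
      have h1 : ‖x‖ ≤ (N : ℝ) + 1 := by
        have := Nat.le_ceil ‖x‖
        rw [hN] at this
        push_cast at this
        exact this
      have h2 : (N : ℝ) < ‖x‖ := by
        have := Nat.ceil_lt_add_one (norm_nonneg x)
        rw [hN] at this
        push_cast at this
        linarith
      have h3 : 1 ≤ N := by
        by_contra hc
        have : N = 0 := by omega
        rw [this] at h1
        push_cast at h1
        linarith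
      refine ⟨N + 1, by push_cast; exact h1, N + 1, le_rfl, ?_, fun j h1 h2 => by omega⟩
      refine trigger S h0 N x h1 (Or.inr ?_)
      obtain ⟨i, hi⟩ := exists_coord h2 (by positivity)
      refine ⟨i, ?_⟩
      have : (1 : ℝ) ≤ N := by exact_mod_cast h3
      linarith
  obtain ⟨N, hN, hI⟩ := key
  refine ⟨N, fun m hm => ?_⟩
  induction m, hm using Nat.le_induction with
  | base => exact hI
  | succ m hm ih =>
    refine Inv_succ S h0 ?_ ih
    have : (N : ℝ) ≤ m := by exact_mod_cast hm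
    linarith

theorem Inv_bound (h0 : ∀ x, 0 < r x) (hL : ∀ x y, r x ≤ r y + ‖x - y‖) {m : ℕ} {x : CX}
    (hI : Inv S m x) : 3 ≤ gR S m x * r (tr m x) := by
  obtain ⟨i, hi, h1, h2⟩ := hI
  have h3 := h0 (tr i x)
  have h4 : ‖tr i x - tr m x‖ ≤ r (tr i x) / 4 := by
    rw [norm_le_iff _ (by positivity)]
    intro j
    rw [ZeroAtInftyContinuousMap.sub_apply, tr_apply, tr_apply]
    by_cases hj1 : j < i
    · rw [if_pos hj1, if_pos (by omega)]; simp; positivity
    · by_cases hj2 : j < m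
      · rw [if_neg hj1, if_pos hj2, zero_sub, norm_neg, Real.norm_eq_abs]
        have := h2 j (by omega) hj2
        linarith
      · rw [if_neg hj1, if_neg hj2]; simp; positivity
  have h5 := hL (tr i x) (tr m x)
  have h6 : 3 / 4 * r (tr i x) ≤ r (tr m x) := by linarith
  have h7 := gR_mono S hi x
  have h8 := gR_pos S i x
  have h9 := h0 (tr m x)
  calc (3 : ℝ) ≤ 3 / 4 * (gR S i x * r (tr i x)) := by linarith
    _ = gR S i x * (3 / 4 * r (tr i x)) := by ring
    _ ≤ gR S i x * r (tr m x) := mul_le_mul_of_nonneg_left h6 h8.le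
    _ ≤ gR S m x * r (tr m x) := mul_le_mul_of_nonneg_right h7 h9.le

/-- boundedness of the recursion at a fixed real point -/
theorem gR_bounded (h0 : ∀ x, 0 < r x) (hL : ∀ x y, r x ≤ r y + ‖x - y‖) (y : CX) :
    ∃ C : ℝ, 1 ≤ C ∧ ∀ m, gR S m y ≤ C := by
  have hy := h0 y
  have ht : Tendsto (fun m => r (tr m y)) atTop (𝓝 (r y)) :=
    ((r_cont hL).tendsto y).comp (tr_tendsto y)
  obtain ⟨N, hN⟩ := (ht.eventually (lt_mem_nhds (show r y / 2 < r y by linarith))).exists_forall_of_atTop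
  obtain ⟨M, hM1, hM2⟩ : ∃ M : ℕ, N ≤ M ∧ ‖y‖ ≤ M := by
    obtain ⟨K, hK⟩ := exists_nat_ge ‖y‖
    exact ⟨max N K, le_max_left _ _, hK.trans (by exact_mod_cast le_max_right _ _)⟩
  set B : ℝ := 72 / r y with hB
  set ka : ℝ := r y / 32 with hka
  have hB0 : 0 < B := by positivity
  have hka0 : 0 < ka := by positivity
  set C : ℝ := max (gR S M y) (2 / ka) + B with hC
  have hstep : ∀ m, M ≤ m → gR S m y ≤ C + 2 * B * (1 - (1 / 2) ^ m) := by
    intro m hm
    induction m, hm using Nat.le_induction with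
    | base =>
      have h1 : gR S M y ≤ max (gR S M y) (2 / ka) := le_max_left _ _
      have h2 : (1 / 2 : ℝ) ^ M ≤ 1 := pow_le_one₀ (by norm_num) (by norm_num)
      have h3 : 0 ≤ 2 * B * (1 - (1 / 2) ^ M) := mul_nonneg (by positivity) (by linarith)
      linarith
    | succ m hm ih =>
      have hym : ‖y‖ ≤ m + 1 := by
        have : (M : ℝ) ≤ m := by exact_mod_cast hm
        linarith
      have hrm : r y / 2 < r (tr (m + 1) y) := hN (m + 1) (by omega)
      have h1 := S.h_le m y hym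
      have h2 := S.rho_ge m y hym
      have h3 := gR_pos S m y
      have hh : pr (S.h m) y ^ 2 ≤ B := by
        rw [hB, le_div_iff₀ hy]
        have : pr (S.h m) y ^ 2 * (r y / 2) ≤ pr (S.h m) y ^ 2 * r (tr (m + 1) y) :=
          mul_le_mul_of_nonneg_left hrm.le (sq_nonneg _)
        linarith
      have hrho : ka ≤ pr (S.rho m) y := by rw [hka]; linarith
      have hd := dR_le S m y
      rw [gR_succ]
      have hp : (1 / 2 : ℝ) ^ (m + 1) = (1 / 2) ^ m * (1 / 2) := pow_succ _ _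
      have hp0 : (0 : ℝ) < (1 / 2) ^ m := by positivity
      have hp1 : (1 / 2 : ℝ) ^ m ≤ 1 := pow_le_one₀ (by norm_num) (by norm_num)
      have hexp1 : Real.exp (-(gR S m y * pr (S.rho m) y) ^ (2 * (m + 1))) ≤ 1 := by
        apply Real.exp_le_one_iff.2
        have : 0 ≤ (gR S m y * pr (S.rho m) y) ^ (2 * (m + 1)) := by rw [pow_mul]; positivity
        linarith
      have hexp0 := Real.exp_pos (-(gR S m y * pr (S.rho m) y) ^ (2 * (m + 1)))
      rcases le_or_gt (gR S m y) (2 / ka) with h | h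
      · have h4 : dR S m y ≤ B := by
          refine hd.trans ?_
          calc _ ≤ B * 1 := mul_le_mul hh hexp1 hexp0.le hB0.le
            _ = B := mul_one _
        have h5 : (2 / ka) ≤ max (gR S M y) (2 / ka) := le_max_right _ _
        have h6 : 0 ≤ 2 * B * (1 - (1 / 2) ^ (m + 1)) := by
          rw [hp]; exact mul_nonneg (by positivity) (by nlinarith)
        linarith
      · have h4 : 2 ≤ gR S m y * pr (S.rho m) y := by
          rw [div_lt_iff₀ hka0] at h
          nlinarith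
        have h5 : (2 : ℝ) ^ m ≤ (gR S m y * pr (S.rho m) y) ^ (2 * (m + 1)) := by
          calc (2 : ℝ) ^ m ≤ 2 ^ (2 * (m + 1)) := pow_le_pow_right₀ (by norm_num) (by omega)
            _ ≤ _ := by gcongr
        have h6 : Real.exp (-(gR S m y * pr (S.rho m) y) ^ (2 * (m + 1))) ≤ (1 / 2) ^ m := by
          have e1 : Real.exp (-(gR S m y * pr (S.rho m) y) ^ (2 * (m + 1))) ≤
              Real.exp (-(2 : ℝ) ^ m) := Real.exp_le_exp.2 (by linarith)
          have e2 : Real.exp (-(2 : ℝ) ^ m) ≤ (1 / 2) ^ m := by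
            rw [Real.exp_neg, one_div, inv_pow]
            refine inv_anti₀ (by positivity) ?_
            have := Real.add_one_le_exp ((2 : ℝ) ^ m)
            linarith
          exact e1.trans e2
        have h7 : dR S m y ≤ B * (1 / 2) ^ m := by
          refine hd.trans ?_
          exact mul_le_mul hh h6 hexp0.le hB0.le
        rw [hp]
        nlinarith
  refine ⟨C + 2 * B + 1, ?_, fun m => ?_⟩
  · have : 0 < 2 / ka := by positivity
    have : 2 / ka ≤ max (gR S M y) (2 / ka) := le_max_right _ _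
    linarith
  · rcases le_total M m with h | h
    · have h1 := hstep m h
      have h2 : (0 : ℝ) < (1 / 2) ^ m := by positivity
      nlinarith
    · have h1 := gR_mono S h y
      have h2 : gR S M y ≤ max (gR S M y) (2 / ka) := le_max_left _ _
      linarith

/-- smallness of the complex increments -/
theorem dC_small {m : ℕ} {z : CE} (hz : 4 * ‖z‖ ≤ m + 1) (hg : ‖gC S m z‖ ≤ m + 1)
    (hgz : ‖gC S m z * z m‖ ≤ 1 / 2) : ‖dC S m z‖ ≤ (1 / 2) ^ m := by
  have hz' : ‖z‖ ≤ m + 1 := by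
    have := norm_nonneg z
    linarith
  have hb := S.bnd m z hz'
  unfold dC
  set w : ℂ := (gC S m z * z m) ^ (2 * S.P m) + Qc (S.P m) (((2 / ((m : ℝ) + 1) : ℝ) : ℂ) • z)
    with hw
  have hm : (0 : ℝ) < (m : ℝ) + 1 := by positivity
  have hQ : ‖Qc (S.P m) (((2 / ((m : ℝ) + 1) : ℝ) : ℂ) • z)‖ ≤ (1 / 4) ^ S.P m * (1 / 3) := by
    refine Qc_small _ _ fun i => ?_
    rw [ZeroAtInftyContinuousMap.smul_apply, smul_eq_mul, norm_mul, Complex.norm_real,
      Real.norm_of_nonneg (by positivity), div_mul_eq_mul_div, div_le_iff₀ hm]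
    have := coe_le_norm z i
    linarith
  have hw1 : ‖w‖ ≤ 2 * (1 / 4) ^ S.P m := by
    calc ‖w‖ ≤ ‖(gC S m z * z m) ^ (2 * S.P m)‖ +
          ‖Qc (S.P m) (((2 / ((m : ℝ) + 1) : ℝ) : ℂ) • z)‖ := norm_add_le _ _
      _ ≤ (1 / 4) ^ S.P m + (1 / 4) ^ S.P m * (1 / 3) := by
          refine add_le_add ?_ hQ
          rw [norm_pow, pow_mul]
          refine pow_le_pow_left₀ (by positivity) ?_ _
          have := norm_nonneg (gC S m z * z m)
          nlinarith
      _ ≤ 2 * (1 / 4) ^ S.P m := by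
          have : (0 : ℝ) < (1 / 4) ^ S.P m := by positivity
          linarith
  have hP : (1 / 4 : ℝ) ^ S.P m ≤ 1 / 4 := by
    calc (1 / 4 : ℝ) ^ S.P m ≤ (1 / 4) ^ 1 :=
          pow_le_pow_of_le_one (by norm_num) (by norm_num) (S.P_pos m)
      _ = 1 / 4 := pow_one _
  have h1 : ‖1 - Complex.exp (-w)‖ ≤ 4 * (1 / 4) ^ S.P m := by
    have h2 := Complex.norm_exp_sub_one_le (x := -w) (by rw [norm_neg]; linarith)
    rw [norm_sub_rev]
    rw [norm_neg] at h2
    linarith
  rw [norm_mul, norm_mul, norm_pow]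
  have h3 : ‖Complex.exp (-(gC S m z * pc (S.rho m) z) ^ (2 * (m + 1)))‖ ≤
      Real.exp (((m + 1) * ‖pc (S.rho m) z‖) ^ (2 * (m + 1))) := by
    rw [Complex.norm_exp]
    apply Real.exp_le_exp.2
    refine (Complex.re_le_norm _).trans ?_
    rw [norm_neg, norm_pow, norm_mul]
    gcongr
  calc ‖pc (S.h m) z‖ ^ 2 * ‖Complex.exp (-(gC S m z * pc (S.rho m) z) ^ (2 * (m + 1)))‖ *
        ‖1 - Complex.exp (-w)‖
      ≤ ‖pc (S.h m) z‖ ^ 2 * Real.exp (((m + 1) * ‖pc (S.rho m) z‖) ^ (2 * (m + 1))) *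
        (4 * (1 / 4) ^ S.P m) := by gcongr
    _ ≤ _ := hb

end Rec


section Majorant

theorem coord_near {z : CE} {y : CX} {d : ℝ} (hz : z ∈ ball (io y) d) (m : ℕ) :
    ‖z m‖ ≤ |y m| + d := by
  rw [mem_ball, dist_eq_norm] at hz
  have h1 : ‖(z - io y) m‖ ≤ ‖z - io y‖ := coe_le_norm _ m
  rw [ZeroAtInftyContinuousMap.sub_apply, io_apply] at h1
  have h2 : z m = ((y m : ℝ) : ℂ) + (z m - ((y m : ℝ) : ℂ)) := by ring
  calc ‖z m‖ = ‖((y m : ℝ) : ℂ) + (z m - ((y m : ℝ) : ℂ))‖ := by rw [← h2]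
    _ ≤ ‖((y m : ℝ) : ℂ)‖ + ‖z m - ((y m : ℝ) : ℂ)‖ := norm_add_le _ _
    _ ≤ |y m| + d := by rw [Complex.norm_real, Real.norm_eq_abs]; linarith

theorem norm_near {z : CE} {y : CX} {d : ℝ} (hz : z ∈ ball (io y) d) : ‖z‖ ≤ ‖y‖ + d := by
  rw [mem_ball, dist_eq_norm] at hz
  have h2 : z = io y + (z - io y) := by abel
  calc ‖z‖ = ‖io y + (z - io y)‖ := by rw [← h2]
    _ ≤ ‖io y‖ + ‖z - io y‖ := norm_add_le _ _
    _ ≤ ‖y‖ + d := by rw [io_norm]; linarith

theorem local_bound {r : CX → ℝ} (S : SD r) (h0 : ∀ x, 0 < r x)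
    (hL : ∀ x y, r x ≤ r y + ‖x - y‖) (y : CX) :
    ∃ (d : ℝ) (M : ℕ), 0 < d ∧ ∀ z ∈ ball (io y) d, ∀ m, M ≤ m → ‖dC S m z‖ ≤ (1 / 2) ^ m := by
  obtain ⟨C, hC1, hC⟩ := gR_bounded S h0 hL y
  set ka : ℝ := 8 * (C + 1) with hka
  have hka0 : 0 < ka := by positivity
  have h1 : ∀ᶠ m in atTop, ‖y m‖ ≤ 1 / ka :=
    (norm_tendsto y).eventually (ge_mem_nhds (by positivity))
  obtain ⟨N, hN⟩ := h1.exists_forall_of_atTop
  obtain ⟨K1, hK1⟩ := exists_nat_ge (4 * (‖y‖ + 1))
  obtain ⟨K2, hK2⟩ := exists_nat_ge (C + 1)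
  set M : ℕ := max (max N 2) (max K1 K2) with hM
  have hMN : N ≤ M := (le_max_left _ _).trans (le_max_left _ _)
  have hM2 : 2 ≤ M := (le_max_right _ _).trans (le_max_left _ _)
  have hMK1 : 4 * (‖y‖ + 1) ≤ (M : ℝ) := hK1.trans (by
    exact_mod_cast (le_max_left K1 K2).trans (le_max_right _ _))
  have hMK2 : C + 1 ≤ (M : ℝ) := hK2.trans (by
    exact_mod_cast (le_max_right K1 K2).trans (le_max_right _ _))
  have hcont := (gC_analytic S M (io y)).continuousAt
  obtain ⟨d1, hd1, hd1'⟩ := Metric.continuousAt_iff.1 hcont (1 / 2) (by norm_num)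
  refine ⟨min d1 (min 1 (1 / ka)), M, by positivity, ?_⟩
  intro z hz
  have hzd1 : z ∈ ball (io y) d1 := ball_subset_ball (min_le_left _ _) hz
  have hz1 : z ∈ ball (io y) 1 :=
    ball_subset_ball ((min_le_right _ _).trans (min_le_left _ _)) hz
  have hzk : z ∈ ball (io y) (1 / ka) :=
    ball_subset_ball ((min_le_right _ _).trans (min_le_right _ _)) hz
  have hp2 : (1 / 2 : ℝ) ^ M ≤ 1 / 4 := by
    calc (1 / 2 : ℝ) ^ M ≤ (1 / 2) ^ 2 := pow_le_pow_of_le_one (by norm_num) (by norm_num) hM2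
      _ = 1 / 4 := by norm_num
  have small : ∀ m, M ≤ m → ‖gC S m z‖ ≤ C + 1 → ‖dC S m z‖ ≤ (1 / 2) ^ m := by
    intro m hm hg
    have hmM : (M : ℝ) ≤ m := by exact_mod_cast hm
    refine dC_small S ?_ ?_ ?_
    · have := norm_near hz1
      linarith
    · linarith
    · rw [norm_mul]
      have h2 := coord_near hzk m
      have h3 := hN m (hMN.trans hm)
      rw [Real.norm_eq_abs] at h3
      have h4 : ‖z m‖ ≤ 2 / ka := by
        have : (2 : ℝ) / ka = 1 / ka + 1 / ka := by ring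
        linarith
      calc ‖gC S m z‖ * ‖z m‖ ≤ (C + 1) * (2 / ka) := by gcongr
        _ = 1 / 4 := by rw [hka]; field_simp; norm_num
        _ ≤ 1 / 2 := by norm_num
  have bd : ∀ m, M ≤ m → ‖gC S m z‖ ≤ C + 1 / 2 + 2 * ((1 / 2) ^ M - (1 / 2) ^ m) := by
    intro m hm
    induction m, hm using Nat.le_induction with
    | base =>
      rw [sub_self, mul_zero, add_zero]
      have h2 := hd1' (mem_ball.1 hzd1)
      rw [dist_eq_norm] at h2
      have h3 : ‖gC S M (io y)‖ ≤ C := by
        rw [gC_io, Complex.norm_real, Real.norm_of_nonneg (gR_pos S M y).le]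
        exact hC M
      have h4 : gC S M z = gC S M (io y) + (gC S M z - gC S M (io y)) := by ring
      calc ‖gC S M z‖ = ‖gC S M (io y) + (gC S M z - gC S M (io y))‖ := by rw [← h4]
        _ ≤ ‖gC S M (io y)‖ + ‖gC S M z - gC S M (io y)‖ := norm_add_le _ _
        _ ≤ C + 1 / 2 := by linarith
    | succ m hm ih =>
      have hpm : (0 : ℝ) < (1 / 2) ^ m := by positivity
      have h2 := small m hm (by linarith)
      rw [gC_succ, pow_succ]
      have h3 := norm_add_le (gC S m z) (dC S m z)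
      linarith
  intro m hm
  have hpm : (0 : ℝ) < (1 / 2) ^ m := by positivity
  have h2 := bd m hm
  exact small m hm (by linarith)

/-- **Analytic majorants.** Every locally bounded above function on real `c_0` is dominated by a
function with a holomorphic extension near every real point. -/
theorem majorant (ph : CX → ℝ)
    (hph : ∀ x, ∃ s : ℝ, 0 < s ∧ ∃ C : ℝ, ∀ y, ‖x - y‖ < s → ph y ≤ C) :
    ∃ (L : CX → ℝ) (Lc : CE → ℂ), (∀ x, AnalyticAt ℂ Lc (io x)) ∧
      (∀ x, Lc (io x) = ((L x : ℝ) : ℂ)) ∧ (∀ x, 1 ≤ L x) ∧ ∀ x, ph x ≤ L x := by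
  obtain ⟨r, h0, h1, hL, hphr⟩ := exists_r ph hph
  obtain ⟨S⟩ := exists_SD h0 h1 hL
  have hsumR : ∀ x, Summable fun m => dR S m x := by
    intro x
    obtain ⟨d, M, hd, h⟩ := local_bound S h0 hL x
    refine Summable.of_norm_bounded_eventually_nat (g := fun m => (1 / 2 : ℝ) ^ m)
      summable_geometric_two ?_
    filter_upwards [eventually_ge_atTop M] with m hm
    have := h (io x) (mem_ball_self hd) m hm
    rw [dC_io, Complex.norm_real] at this
    exact this
  set L : CX → ℝ := fun x => S.Gam + ∑' m, dR S m x with hLdef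
  set Lc : CE → ℂ := fun z => (S.Gam : ℂ) + ∑' m, dC S m z with hLcdef
  have hge : ∀ x m, gR S m x ≤ L x := by
    intro x m
    have h2 : gR S m x = S.Gam + ∑ i ∈ Finset.range m, dR S i x := by
      induction m with
      | zero => simp [gR]
      | succ m ih => rw [gR_succ, ih, Finset.sum_range_succ]; ring
    rw [h2, hLdef]
    have := (hsumR x).sum_le_tsum (Finset.range m) (fun i _ => dR_nonneg S i x)
    simp only
    linarith
  have hLr : ∀ x, 2 ≤ L x * r x := by
    intro x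
    have hx := h0 x
    obtain ⟨N, hN⟩ := Inv_ev S h0 x
    have ht : Tendsto (fun m => r (tr m x)) atTop (𝓝 (r x)) :=
      ((r_cont hL).tendsto x).comp (tr_tendsto x)
    obtain ⟨m, hm1, hm2⟩ := ((ht.eventually (gt_mem_nhds
      (show r x < 3 / 2 * r x by linarith))).and (eventually_ge_atTop N)).exists
    have h2 := Inv_bound S h0 hL (hN m hm2)
    have h3 := gR_pos S m x
    have h4 := hge x m
    have h5 : gR S m x * r (tr m x) ≤ gR S m x * (3 / 2 * r x) :=
      mul_le_mul_of_nonneg_left hm1.le h3.le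
    have h6 : gR S m x * r x ≤ L x * r x := mul_le_mul_of_nonneg_right h4 hx.le
    linarith
  refine ⟨L, Lc, fun y => ?_, fun x => ?_, fun x => ?_, fun x => ?_⟩
  · obtain ⟨d, M, hd, h⟩ := local_bound S h0 hL y
    have hA : AnalyticAt ℂ (fun z => gC S M z + ∑' j, dC S (j + M) z) (io y) := by
      refine (gC_analytic S M (io y)).add ?_
      refine analyticAt_tsum (R := d) hd (u := fun j => (1 / 2 : ℝ) ^ (j + M))
        ((summable_nat_add_iff M).2 summable_geometric_two) (fun n z _ => dC_analytic S _ z)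
        fun n z hz => h z hz (n + M) (by omega)
    refine hA.congr ?_
    filter_upwards [ball_mem_nhds (io y) hd] with z hz
    have hs : Summable fun m => dC S m z := by
      refine Summable.of_norm_bounded_eventually_nat (g := fun m => (1 / 2 : ℝ) ^ m)
        summable_geometric_two ?_
      filter_upwards [eventually_ge_atTop M] with m hm
      exact h z hz m hm
    have h2 : gC S M z = (S.Gam : ℂ) + ∑ i ∈ Finset.range M, dC S i z := by
      clear hs h hA hz
      induction M with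
      | zero => simp [gC]
      | succ m ih => rw [gC_succ, ih, Finset.sum_range_succ]; ring
    rw [hLcdef]
    simp only
    rw [h2, add_assoc, hs.sum_add_tsum_nat_add M]
  · rw [hLcdef, hLdef]
    simp only [dC_io]
    rw [← Complex.ofReal_tsum]
    push_cast
    rfl
  · have h2 := hLr x
    have h3 := h1 x
    have h4 := h0 x
    by_contra hc
    push Not at hc
    nlinarith
  · have h2 := hLr x
    have h3 := hphr x
    have h4 := h0 x
    by_contra hc
    push Not at hc
    nlinarith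

end Majorant


section Approx

/-- a dense sequence of finitely supported vectors -/
theorem exists_dense : ∃ (xs : ℕ → CX) (Nb : ℕ → ℕ), DenseRange xs ∧
    (∀ j i, Nb j ≤ i → xs j i = 0) ∧ ∀ j, ‖xs j‖ ≤ Nb j := by
  obtain ⟨s, hs⟩ := exists_surjective_nat (ℕ →₀ ℚ)
  have hfin : ∀ q : ℕ →₀ ℚ, ∃ N : ℕ, ∀ i, N ≤ i → q i = 0 := by
    intro q
    refine ⟨q.support.sup id + 1, fun i hi => ?_⟩
    by_contra h
    have : i ∈ q.support := Finsupp.mem_support_iff.2 h
    have := Finset.le_sup (f := id) this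
    simp only [id] at this
    omega
  have ht : ∀ q : ℕ →₀ ℚ, Tendsto (fun i => ((q i : ℚ) : ℝ)) atTop (𝓝 0) := by
    intro q
    obtain ⟨N, hN⟩ := hfin q
    refine tendsto_const_nhds.congr' ?_
    filter_upwards [eventually_ge_atTop N] with i hi
    rw [hN i hi]; simp
  set xs : ℕ → CX := fun j => mk0 (fun i => ((s j i : ℚ) : ℝ)) (ht (s j)) with hxs
  have hNb : ∀ j, ∃ N : ℕ, (∀ i, N ≤ i → xs j i = 0) ∧ ‖xs j‖ ≤ N := by
    intro j
    obtain ⟨N, hN⟩ := hfin (s j)
    obtain ⟨K, hK⟩ := exists_nat_ge ‖xs j‖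
    refine ⟨max N K, fun i hi => ?_, hK.trans (by exact_mod_cast le_max_right _ _)⟩
    show ((s j i : ℚ) : ℝ) = 0
    rw [hN i ((le_max_left _ _).trans hi)]; simp
  choose Nb hNb1 hNb2 using hNb
  refine ⟨xs, Nb, ?_, hNb1, hNb2⟩
  rw [Metric.denseRange_iff]
  intro x e he
  have h1 := Metric.tendsto_atTop.1 (tr_tendsto x) (e / 2) (by positivity)
  obtain ⟨m, hm⟩ := h1
  have h2 := hm m le_rfl
  have hq : ∀ i : ℕ, ∃ q : ℚ, |x i - q| < e / 4 := fun i => by
    obtain ⟨q, hq1, hq2⟩ := exists_rat_btwn (show x i - e / 4 < x i + e / 4 by linarith)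
    exact ⟨q, by rw [abs_lt]; constructor <;> linarith⟩
  choose q hq using hq
  obtain ⟨j, hj⟩ := hs (∑ i ∈ Finset.range m, Finsupp.single i (q i))
  refine ⟨j, ?_⟩
  have h3 : ‖tr m x - xs j‖ ≤ e / 4 := by
    rw [norm_le_iff _ (by positivity)]
    intro i
    rw [ZeroAtInftyContinuousMap.sub_apply, tr_apply]
    have h4 : xs j i = if i < m then ((q i : ℚ) : ℝ) else 0 := by
      show ((s j i : ℚ) : ℝ) = _
      rw [hj, Finsupp.finsetSum_apply]
      simp only [Finsupp.single_apply, Finset.sum_ite_eq', Finset.mem_range]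
      split_ifs <;> simp
    rw [h4]
    split_ifs with h
    · rw [Real.norm_eq_abs]; exact (hq i).le
    · simp; positivity
  calc dist x (xs j) ≤ dist x (tr m x) + dist (tr m x) (xs j) := dist_triangle _ _ _
    _ < e / 2 + e / 2 := by
        rw [dist_comm x, dist_eq_norm (tr m x) (xs j)]
        have : e / 4 < e / 2 := by linarith
        linarith
    _ = e := by ring

/-- modulus of continuity as a locally bounded function -/
theorem exists_modulus (f : CX → ℝ) (hf : Continuous f) {ε : ℝ} (hε : 0 < ε) :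
    ∃ ro : CX → ℝ, (∀ x, 0 < ro x) ∧ (∀ x y, ‖x - y‖ < ro x → |f y - f x| ≤ ε) ∧
      ∀ x, ∃ s : ℝ, 0 < s ∧ ∃ C : ℝ, ∀ y, ‖x - y‖ < s → 2 / ro y ≤ C := by
  set A : CX → Set ℝ := fun x => {s | 0 < s ∧ s ≤ 1 ∧ ∀ y, ‖x - y‖ < s → |f y - f x| ≤ ε} with hA
  have hbdd : ∀ x, BddAbove (A x) := fun x => ⟨1, fun s hs => hs.2.1⟩
  have key : ∀ x, ∃ s : ℝ, 0 < s ∧ s ≤ 1 ∧ ∀ y, ‖x - y‖ < s / 2 → s / 2 ∈ A y := by
    intro x
    obtain ⟨s, hs, h⟩ := Metric.continuousAt_iff.1 (hf.continuousAt (x := x)) (ε / 2) (by positivity)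
    have hs1 : 0 < min s 1 := by positivity
    refine ⟨min s 1, hs1, min_le_right _ _, fun y hy => ⟨by positivity, ?_, fun w hw => ?_⟩⟩
    · have := min_le_right s 1
      linarith
    · have hss := min_le_left s 1
      have h1 : dist y x < s := by
        rw [dist_comm, dist_eq_norm]; linarith
      have h2 : dist w x < s := by
        rw [dist_comm, dist_eq_norm]
        have := norm_sub_le_norm_sub_add_norm_sub x y w
        linarith
      have h3 := h h1
      have h4 := h h2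
      rw [Real.dist_eq] at h3 h4
      have h5 : f w - f y = (f w - f x) - (f y - f x) := by ring
      rw [h5]
      have := abs_sub (f w - f x) (f y - f x)
      linarith
  have hmem : ∀ x, (A x).Nonempty := fun x => by
    obtain ⟨s, hs0, _, hs⟩ := key x
    exact ⟨s / 2, hs x (by simpa using hs0)⟩
  have hpos : ∀ x, 0 < sSup (A x) := fun x => by
    obtain ⟨s, hs0, _, hs⟩ := key x
    exact lt_of_lt_of_le (by linarith) (le_csSup (hbdd x) (hs x (by simpa using hs0)))
  refine ⟨fun x => sSup (A x), hpos, fun x y hxy => ?_, fun x => ?_⟩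
  · obtain ⟨s, hs, hxs⟩ := exists_lt_of_lt_csSup (hmem x) hxy
    exact hs.2.2 y hxs
  · obtain ⟨s, hs0, _, hs⟩ := key x
    refine ⟨s / 2, by linarith, 2 / (s / 2), fun y hy => ?_⟩
    have h1 := le_csSup (hbdd y) (hs y hy)
    have h2 : 0 < s / 2 := by linarith
    exact div_le_div_of_nonneg_left (by norm_num) h2 h1

theorem cont_of_ext {L : CX → ℝ} {Lc : CE → ℂ} (h1 : ∀ x, AnalyticAt ℂ Lc (io x))
    (h2 : ∀ x, Lc (io x) = ((L x : ℝ) : ℂ)) : Continuous L := by
  rw [continuous_iff_continuousAt]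
  intro x
  have h3 : ContinuousAt (fun x => (Lc (io x)).re) x :=
    Complex.continuous_re.continuousAt.comp ((h1 x).continuousAt.comp io.continuous.continuousAt)
  refine h3.congr (Eventually.of_forall fun y => ?_)
  simp only [h2, Complex.ofReal_re]

/-- growth bound for the separating function centred at a finitely supported point -/
theorem Qc_centre {xj : CX} {N : ℕ} (h1 : ∀ i, N ≤ i → xj i = 0) (h2 : ‖xj‖ ≤ N)
    {y : CX} {d La : ℝ} (hd0 : 0 < d) (hd : d ≤ 1) (hLa : 0 ≤ La) (hLd : La * d ≤ 1 / 4)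
    {z : CE} (hz : z ∈ ball (io y) d) {c : ℂ} (hc : ‖c‖ ≤ La) :
    ‖Qc 0 (c • (z - io xj))‖ ≤ (∑' i, (La * (|y i| + d)) ^ (2 * (0 + i + 1))) +
      N * (1 + La * (‖y‖ + 1 + N)) ^ (2 * N) := by
  have hs1 : Summable fun i => (La * (|y i| + d)) ^ (2 * (0 + i + 1)) := by
    refine pow_dom' 0 ?_ fun i => by positivity
    have h3 : Tendsto (fun i => La * (|y i| + d)) atTop (𝓝 (La * (0 + d))) :=
      ((norm_tendsto y).add_const d).const_mul La
    exact h3.eventually (ge_mem_nhds (by rw [zero_add]; linarith))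
  set K : ℝ := 1 + La * (‖y‖ + 1 + N) with hK
  have hK1 : 1 ≤ K := by
    have : 0 ≤ La * (‖y‖ + 1 + N) := by positivity
    linarith
  set e : ℕ → ℝ := fun i => if i < N then K ^ (2 * N) else 0 with he
  have hs2 : HasSum e (∑ i ∈ Finset.range N, e i) :=
    hasSum_sum_of_ne_finset_zero fun i hi => by
      rw [Finset.mem_range] at hi
      simp only [he, if_neg hi]
  have hse : ∑ i ∈ Finset.range N, e i = N * K ^ (2 * N) := by
    rw [Finset.sum_congr rfl (fun i hi => if_pos (Finset.mem_range.1 hi)), Finset.sum_const,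
      Finset.card_range, nsmul_eq_mul]
  refine (Qc_bound 0 _).trans ?_
  rw [← hse, ← hs2.tsum_eq, ← hs1.tsum_add hs2.summable]
  refine (Q_summable 0 _).tsum_le_tsum (fun i => ?_) (hs1.add hs2.summable)
  rw [ZeroAtInftyContinuousMap.smul_apply, ZeroAtInftyContinuousMap.sub_apply, io_apply,
    smul_eq_mul, norm_mul]
  have h0a : 0 ≤ (La * (|y i| + d)) ^ (2 * (0 + i + 1)) := by positivity
  by_cases hi : i < N
  · simp only [he, if_pos hi]
    have h3 : ‖z i - ((xj i : ℝ) : ℂ)‖ ≤ ‖y‖ + 1 + N := by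
      calc ‖z i - ((xj i : ℝ) : ℂ)‖ ≤ ‖z i‖ + ‖((xj i : ℝ) : ℂ)‖ := norm_sub_le _ _
        _ ≤ ‖y‖ + 1 + N := by
          have e1 := coe_le_norm z i
          have e2 := norm_near hz
          have e3 := coe_le_norm xj i
          rw [Complex.norm_real]
          linarith
    have h4 : ‖c‖ * ‖z i - ((xj i : ℝ) : ℂ)‖ ≤ K := by
      calc ‖c‖ * ‖z i - ((xj i : ℝ) : ℂ)‖ ≤ La * (‖y‖ + 1 + N) := by gcongr
        _ ≤ K := by linarith
    calc (‖c‖ * ‖z i - ((xj i : ℝ) : ℂ)‖) ^ (2 * (0 + i + 1)) ≤ K ^ (2 * (0 + i + 1)) := by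
          gcongr
      _ ≤ K ^ (2 * N) := pow_le_pow_right₀ hK1 (by omega)
      _ ≤ _ := by linarith
  · simp only [he, if_neg hi, add_zero]
    rw [h1 i (by omega), Complex.ofReal_zero, sub_zero]
    have h3 := coord_near hz i
    gcongr

theorem Qr_lt_one {x : CX} (h : Qr 0 x < 1) (i : ℕ) : |x i| < 1 := by
  by_contra hc
  push Not at hc
  exact absurd (Qr_ge_one 0 x hc) (not_le.2 h)

/-- **Uniform approximation of continuous functions on `c_0` by real analytic functions.** -/
theorem approx (f : CX → ℝ) (hf : Continuous f) (ε : ℝ) (hε : 0 < ε) :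
    ∃ g : CX → ℝ, (∀ x, AnalyticAt ℝ g x) ∧ ∀ x, |f x - g x| < ε := by
  obtain ⟨xs, Nb, hdense, hNb1, hNb2⟩ := exists_dense
  obtain ⟨ro, hro0, hro, hrob⟩ := exists_modulus f hf (show 0 < ε / 2 by positivity)
  obtain ⟨L, Lc, hLa, hLe, hL1, hLro⟩ := majorant (fun x => 2 / ro x) hrob
  have hLcont := cont_of_ext hLa hLe
  have hL0 : ∀ x, 0 < L x := fun x => lt_of_lt_of_le one_pos (hL1 x)
  -- weights
  set W : ℕ → ℝ := fun j => ((j : ℝ) + Nb j + 1) ^ (4 * Nb j + 2) with hW
  set c : ℕ → ℝ := fun j => (1 / 2) ^ j / (1 + |f (xs j)|) * Real.exp (-W j) with hc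
  have hfp : ∀ j, 0 < 1 + |f (xs j)| := fun j => by positivity
  have hc0 : ∀ j, 0 < c j := fun j => by have := hfp j; positivity
  have hcf : ∀ j, c j * (1 + |f (xs j)|) = (1 / 2) ^ j * Real.exp (-W j) := fun j => by
    have := (hfp j).ne'
    simp only [hc]; field_simp
  have hW0 : ∀ j, 0 ≤ W j := fun j => by positivity
  have hcf1 : ∀ j, c j * (1 + |f (xs j)|) ≤ (1 / 2) ^ j := fun j => by
    rw [hcf]
    refine mul_le_of_le_one_right (by positivity) (Real.exp_le_one_iff.2 ?_)
    have := hW0 j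
    linarith
  -- near centres
  have hnear : ∀ x, ∃ j, ‖x - xs j‖ < 1 / (2 * L x) := fun x => by
    obtain ⟨j, hj⟩ := Metric.denseRange_iff.1 hdense x (1 / (2 * L x))
      (by have := hL0 x; positivity)
    exact ⟨j, by rwa [dist_eq_norm] at hj⟩
  classical
  set jj : CX → ℕ := fun x => Nat.find (hnear x) with hjj
  have hjjs : ∀ x, ‖x - xs (jj x)‖ < 1 / (2 * L x) := fun x => Nat.find_spec (hnear x)
  obtain ⟨L2, L2c, hL2a, hL2e, hL21, hL2ge⟩ := majorant
    (fun x => 3 / 2 * Real.log (8 * (1 + |f x|) / (ε * c (jj x)))) (by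
    intro x
    have hev1 : ∀ᶠ y in 𝓝 x, ‖y - xs (jj x)‖ < 1 / (2 * L y) := by
      have h1 : Continuous fun y => ‖y - xs (jj x)‖ := by fun_prop
      have h2 : Continuous fun y => 1 / (2 * L y) :=
        continuous_const.div (continuous_const.mul hLcont) fun y => by
          have := hL0 y; positivity
      exact (h1.tendsto x).eventually_lt (h2.tendsto x) (hjjs x)
    have hev2 : ∀ᶠ y in 𝓝 x, |f y| < |f x| + 1 :=
      (hf.abs.tendsto x).eventually (gt_mem_nhds (by linarith))
    obtain ⟨s, hs, h⟩ := Metric.eventually_nhds_iff.1 (hev1.and hev2)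
    set D : ℝ := ∑ i ∈ Finset.range (jj x + 1), 1 / c i with hD
    have hD0 : ∀ i ∈ Finset.range (jj x + 1), 0 ≤ 1 / c i := fun i _ => by
      have := hc0 i; positivity
    refine ⟨s, hs, 3 / 2 * Real.log (8 * (2 + |f x|) / ε * D), fun y hy => ?_⟩
    have hy' := h (show dist y x < s by rw [dist_comm, dist_eq_norm]; exact hy)
    have h3 : jj y ≤ jj x := Nat.find_min' (hnear y) hy'.1
    have h4 : 1 / c (jj y) ≤ D :=
      Finset.single_le_sum hD0 (Finset.mem_range.2 (by omega))
    have h5 := hc0 (jj y)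
    have h6 : 8 * (1 + |f y|) / (ε * c (jj y)) ≤ 8 * (2 + |f x|) / ε * D := by
      have e1 : 8 * (1 + |f y|) / (ε * c (jj y)) = 8 * (1 + |f y|) / ε * (1 / c (jj y)) := by
        field_simp
      rw [e1]
      have e2 : 0 < 1 / c (jj y) := by positivity
      have e3 : 8 * (1 + |f y|) / ε ≤ 8 * (2 + |f x|) / ε :=
        div_le_div_of_nonneg_right (by linarith [hy'.2]) hε.le
      exact mul_le_mul e3 h4 e2.le (by positivity)
    have h7 : 0 < 8 * (1 + |f y|) / (ε * c (jj y)) := by positivity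
    have := Real.log_le_log h7 h6
    linarith)
  have hL20 : ∀ x, 0 < L2 x := fun x => lt_of_lt_of_le one_pos (hL21 x)
  -- the terms
  set T : ℕ → CE → ℂ := fun j z =>
    (c j : ℂ) * Complex.exp (-(L2c z * Qc 0 (Lc z • (z - io (xs j))))) with hT
  set t : ℕ → CX → ℝ := fun j x => c j * Real.exp (-(L2 x * Qr 0 (L x • (x - xs j)))) with ht
  have hTt : ∀ j x, T j (io x) = ((t j x : ℝ) : ℂ) := by
    intro j x
    simp only [hT, ht]
    rw [hLe, hL2e, ← map_sub, ← io_smul, Qc_io]
    push_cast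
    rfl
  -- analyticity of weighted sums
  have hmain : ∀ a : ℕ → ℂ, (∀ j, ‖a j‖ ≤ 1 + |f (xs j)|) → ∀ y : CX,
      AnalyticAt ℂ (fun z => ∑' j, a j * T j z) (io y) := by
    intro a ha y
    set La : ℝ := max (‖Lc (io y)‖ + 1) (‖L2c (io y)‖ + 1) with hLadef
    have hLa0 : 0 < La := lt_of_lt_of_le (by positivity) (le_max_left _ _)
    have e1 : ∀ᶠ z in 𝓝 (io y), ‖Lc z‖ < ‖Lc (io y)‖ + 1 :=
      ((hLa y).continuousAt.norm.tendsto).eventually (gt_mem_nhds (by linarith))
    have e2 : ∀ᶠ z in 𝓝 (io y), ‖L2c z‖ < ‖L2c (io y)‖ + 1 :=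
      ((hL2a y).continuousAt.norm.tendsto).eventually (gt_mem_nhds (by linarith))
    have e3 := (hLa y).eventually_analyticAt
    have e4 := (hL2a y).eventually_analyticAt
    obtain ⟨d1, hd1, h1⟩ := Metric.eventually_nhds_iff.1 (e1.and (e2.and (e3.and e4)))
    set d : ℝ := min d1 (min 1 (1 / (4 * La))) with hd
    have hd0 : 0 < d := by positivity
    have hd_1 : d ≤ 1 := (min_le_right _ _).trans (min_le_left _ _)
    have hd_2 : La * d ≤ 1 / 4 := by
      have : d ≤ 1 / (4 * La) := (min_le_right _ _).trans (min_le_right _ _)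
      calc La * d ≤ La * (1 / (4 * La)) := by gcongr
        _ = 1 / 4 := by field_simp
    set Cy : ℝ := ∑' i, (La * (|y i| + d)) ^ (2 * (0 + i + 1)) with hCy
    set u : ℕ → ℝ := fun j => (1 + |f (xs j)|) * (c j *
      Real.exp (La * (Cy + Nb j * (1 + La * (‖y‖ + 1 + Nb j)) ^ (2 * Nb j)))) with hu
    refine analyticAt_tsum (R := d) hd0 (u := u) ?_ (fun j z hz => ?_) (fun j z hz => ?_)
    · obtain ⟨K, hK⟩ := exists_nat_ge (max La (1 + La * (‖y‖ + 1)))
      have hK1 : La ≤ K := (le_max_left _ _).trans hK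
      have hK2 : 1 + La * (‖y‖ + 1) ≤ K := (le_max_right _ _).trans hK
      refine Summable.of_norm_bounded_eventually_nat
        (g := fun j => (1 / 2 : ℝ) ^ j * Real.exp (La * Cy)) (summable_geometric_two.mul_right _) ?_
      filter_upwards [eventually_ge_atTop K] with j hj
      have hjK : (K : ℝ) ≤ j := by exact_mod_cast hj
      have hu0 : 0 ≤ u j := by
        have := hc0 j
        positivity
      rw [Real.norm_of_nonneg hu0]
      set B : ℝ := (j : ℝ) + Nb j + 1 with hB
      have hNb0 : (0 : ℝ) ≤ Nb j := Nat.cast_nonneg _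
      have hj0 : (0 : ℝ) ≤ j := Nat.cast_nonneg _
      have hB1 : 1 + La * (‖y‖ + 1 + Nb j) ≤ B ^ 2 := by
        calc 1 + La * (‖y‖ + 1 + Nb j) = (1 + La * (‖y‖ + 1)) + La * Nb j := by ring
          _ ≤ j + j * Nb j := by
              have : La * Nb j ≤ j * Nb j := mul_le_mul_of_nonneg_right (hK1.trans hjK) hNb0
              linarith
          _ ≤ B ^ 2 := by rw [hB]; nlinarith
      have hB2 : La * Nb j ≤ B ^ 2 := by
        calc La * Nb j ≤ j * Nb j := mul_le_mul_of_nonneg_right (hK1.trans hjK) hNb0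
          _ ≤ B ^ 2 := by rw [hB]; nlinarith
      have hB3 : La * (Nb j * (1 + La * (‖y‖ + 1 + Nb j)) ^ (2 * Nb j)) ≤ W j := by
        calc La * (Nb j * (1 + La * (‖y‖ + 1 + Nb j)) ^ (2 * Nb j))
            = (La * Nb j) * (1 + La * (‖y‖ + 1 + Nb j)) ^ (2 * Nb j) := by ring
          _ ≤ B ^ 2 * (B ^ 2) ^ (2 * Nb j) := by gcongr
          _ = W j := by
              simp only [hW, ← hB]
              rw [← pow_mul, ← pow_add]
              congr 1
              ring
      have e5 : u j = (1 / 2) ^ j * Real.exp (-W j) *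
          Real.exp (La * (Cy + Nb j * (1 + La * (‖y‖ + 1 + Nb j)) ^ (2 * Nb j))) := by
        simp only [hu]
        rw [← hcf j]; ring
      rw [e5, mul_assoc, ← Real.exp_add]
      refine mul_le_mul_of_nonneg_left (Real.exp_le_exp.2 ?_) (by positivity)
      rw [mul_add]
      linarith
    · have h2 := h1 (mem_ball.1 (ball_subset_ball (min_le_left _ _) hz))
      have h3 : AnalyticAt ℂ (fun z : CE => Lc z • (z - io (xs j))) z :=
        h2.2.2.1.smul (analyticAt_id.sub analyticAt_const)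
      have h4 : AnalyticAt ℂ (fun z : CE => Qc 0 (Lc z • (z - io (xs j)))) z :=
        (Qc_analytic 0 _).comp h3
      exact analyticAt_const.mul (analyticAt_const.mul ((h2.2.2.2.mul h4).neg.cexp))
    · have h2 := h1 (mem_ball.1 (ball_subset_ball (min_le_left _ _) hz))
      have h3 : ‖Lc z‖ ≤ La := h2.1.le.trans (le_max_left _ _)
      have h4 : ‖L2c z‖ ≤ La := h2.2.1.le.trans (le_max_right _ _)
      have h5 := Qc_centre (hNb1 j) (hNb2 j) hd0 hd_1 hLa0.le hd_2 hz h3
      have h6 : ‖Complex.exp (-(L2c z * Qc 0 (Lc z • (z - io (xs j)))))‖ ≤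
          Real.exp (La * (Cy + Nb j * (1 + La * (‖y‖ + 1 + Nb j)) ^ (2 * Nb j))) := by
        rw [Complex.norm_exp]
        apply Real.exp_le_exp.2
        refine (Complex.re_le_norm _).trans ?_
        rw [norm_neg, norm_mul]
        gcongr
      simp only [hT, hu]
      rw [norm_mul, norm_mul, Complex.norm_real, Real.norm_of_nonneg (hc0 j).le]
      have := hc0 j
      gcongr
      exact ha j
  -- real sums
  have hQ0 : ∀ j x, 0 ≤ Qr 0 (L x • (x - xs j)) := fun j x => Qr_nonneg _ _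
  have ht0 : ∀ j x, 0 < t j x := fun j x => mul_pos (hc0 j) (Real.exp_pos _)
  have htc : ∀ j x, t j x ≤ c j := fun j x => by
    refine mul_le_of_le_one_right (hc0 j).le (Real.exp_le_one_iff.2 ?_)
    have := mul_nonneg (hL20 x).le (hQ0 j x)
    linarith
  have hts : ∀ x, Summable fun j => t j x := fun x => by
    refine Summable.of_nonneg_of_le (fun j => (ht0 j x).le) (fun j => ?_) summable_geometric_two
    refine (htc j x).trans (le_trans ?_ (hcf1 j))
    exact le_mul_of_one_le_right (hc0 j).le (by have := abs_nonneg (f (xs j)); linarith)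
  have hfts : ∀ x, Summable fun j => f (xs j) * t j x := fun x => by
    refine Summable.of_norm_bounded summable_geometric_two (fun j => ?_)
    rw [norm_mul, Real.norm_of_nonneg (ht0 j x).le, Real.norm_eq_abs]
    refine le_trans ?_ (hcf1 j)
    rw [mul_comm]
    refine mul_le_mul (htc j x) (by linarith) (abs_nonneg _) (hc0 j).le
  set den : CX → ℝ := fun x => ∑' j, t j x with hden
  set num : CX → ℝ := fun x => ∑' j, f (xs j) * t j x with hnum
  have hden0 : ∀ x, 0 < den x := fun x => (hts x).tsum_pos (fun j => (ht0 j x).le) 0 (ht0 0 x)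
  have hDenA : ∀ y, AnalyticAt ℂ (fun z => ∑' j, (1 : ℂ) * T j z) (io y) :=
    hmain (fun _ => 1) (fun j => by
      rw [norm_one]; have := abs_nonneg (f (xs j)); linarith)
  have hNumA : ∀ y, AnalyticAt ℂ (fun z => ∑' j, (f (xs j) : ℂ) * T j z) (io y) :=
    hmain (fun j => (f (xs j) : ℂ)) (fun j => by
      rw [Complex.norm_real, Real.norm_eq_abs]; linarith)
  have hDenE : ∀ x, (∑' j, (1 : ℂ) * T j (io x)) = ((den x : ℝ) : ℂ) := fun x => by
    simp only [hTt, one_mul, hden, Complex.ofReal_tsum]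
  have hNumE : ∀ x, (∑' j, (f (xs j) : ℂ) * T j (io x)) = ((num x : ℝ) : ℂ) := fun x => by
    simp only [hTt, hnum, Complex.ofReal_tsum, Complex.ofReal_mul]
  set G : CE → ℂ := fun z => (∑' j, (f (xs j) : ℂ) * T j z) / ∑' j, (1 : ℂ) * T j z with hG
  have hGA : ∀ y, AnalyticAt ℂ G (io y) := fun y => (hNumA y).div (hDenA y) (by
    rw [hDenE]; exact_mod_cast (hden0 y).ne')
  refine ⟨fun x => (G (io x)).re, fun x => analyticAt_real (hGA x), fun x => ?_⟩
  have hGx : (G (io x)).re = num x / den x := by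
    simp only [hG]
    rw [hDenE, hNumE, ← Complex.ofReal_div, Complex.ofReal_re]
  simp only
  rw [hGx]
  -- the error estimate
  have hd := hden0 x
  have hLx := hL0 x
  have hL2x := hL20 x
  have hbd : |num x - f x * den x| ≤ ε / 2 * den x + 2 * ((1 + |f x|) * Real.exp (-L2 x)) := by
    have h1 : num x - f x * den x = ∑' j, (f (xs j) - f x) * t j x := by
      rw [hnum, hden]
      simp only
      rw [← tsum_mul_left, ← (hfts x).tsum_sub ((hts x).mul_left _)]
      refine tsum_congr fun j => ?_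
      ring
    have h2 : HasSum (fun j => ε / 2 * t j x + (1 / 2) ^ j * ((1 + |f x|) * Real.exp (-L2 x)))
        (ε / 2 * den x + 2 * ((1 + |f x|) * Real.exp (-L2 x))) :=
      ((hts x).hasSum.mul_left _).add (hasSum_geometric_two.mul_right _)
    rw [h1, ← Real.norm_eq_abs]
    refine tsum_of_norm_bounded h2 fun j => ?_
    rw [norm_mul, Real.norm_of_nonneg (ht0 j x).le, Real.norm_eq_abs]
    have hf1 := abs_nonneg (f x)
    have hf2 := abs_nonneg (f (xs j))
    have hcj := hc0 j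
    have htj := ht0 j x
    rcases lt_or_ge (Qr 0 (L x • (x - xs j))) 1 with h | h
    · have h3 : ‖x - xs j‖ ≤ 1 / L x := by
        rw [norm_le_iff _ (by positivity)]
        intro i
        have h4 := Qr_lt_one h i
        rw [ZeroAtInftyContinuousMap.smul_apply, smul_eq_mul, abs_mul, abs_of_pos hLx] at h4
        rw [Real.norm_eq_abs, le_div_iff₀ hLx]
        linarith
      have h5 : 1 / L x < ro x := by
        have h6 := hLro x
        have h7 := hro0 x
        rw [div_le_iff₀ h7] at h6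
        rw [div_lt_iff₀ hLx]
        nlinarith
      have h6 := hro x (xs j) (lt_of_le_of_lt h3 h5)
      have h7 : 0 ≤ (1 / 2 : ℝ) ^ j * ((1 + |f x|) * Real.exp (-L2 x)) := by positivity
      nlinarith
    · have h3 : t j x ≤ c j * Real.exp (-L2 x) := by
        simp only [ht]
        refine mul_le_mul_of_nonneg_left (Real.exp_le_exp.2 ?_) hcj.le
        nlinarith
      have h4 : |f (xs j) - f x| ≤ (1 + |f (xs j)|) * (1 + |f x|) := by
        have := abs_sub (f (xs j)) (f x)
        nlinarith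
      have h5 : 0 ≤ ε / 2 * t j x := by positivity
      calc |f (xs j) - f x| * t j x
          ≤ ((1 + |f (xs j)|) * (1 + |f x|)) * (c j * Real.exp (-L2 x)) := by gcongr
        _ = (c j * (1 + |f (xs j)|)) * ((1 + |f x|) * Real.exp (-L2 x)) := by ring
        _ ≤ (1 / 2) ^ j * ((1 + |f x|) * Real.exp (-L2 x)) := by
            gcongr
            exact hcf1 j
        _ ≤ _ := by linarith
  have hdlow : c (jj x) * Real.exp (-(L2 x / 3)) ≤ den x := by
    have h1 : t (jj x) x ≤ den x := (hts x).le_tsum (jj x) fun j _ => (ht0 j x).le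
    refine le_trans ?_ h1
    simp only [ht]
    refine mul_le_mul_of_nonneg_left (Real.exp_le_exp.2 ?_) (hc0 _).le
    have h2 : Qr 0 (L x • (x - xs (jj x))) ≤ 1 / 3 := by
      refine Qr_small _ fun i => ?_
      rw [ZeroAtInftyContinuousMap.smul_apply, smul_eq_mul, abs_mul, abs_of_pos hLx]
      have h3 := coe_le_norm (x - xs (jj x)) i
      rw [Real.norm_eq_abs] at h3
      have h4 := hjjs x
      rw [lt_div_iff₀ (by positivity)] at h4
      nlinarith
    nlinarith
  have hsmall : 2 * ((1 + |f x|) * Real.exp (-L2 x)) < ε / 2 * den x := by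
    have hcj := hc0 (jj x)
    have h1 := hL2ge x
    have h2 : Real.log (8 * (1 + |f x|) / (ε * c (jj x))) ≤ 2 / 3 * L2 x := by
      linarith
    have h3 : 0 < 8 * (1 + |f x|) / (ε * c (jj x)) := by positivity
    have h4 := (Real.log_le_iff_le_exp h3).1 h2
    rw [div_le_iff₀ (by positivity)] at h4
    have h5 : Real.exp (2 / 3 * L2 x) * Real.exp (-L2 x) = Real.exp (-(L2 x / 3)) := by
      rw [← Real.exp_add]; congr 1; ring
    have h6 : 8 * (1 + |f x|) * Real.exp (-L2 x) ≤ ε * (c (jj x) * Real.exp (-(L2 x / 3))) := by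
      have := mul_le_mul_of_nonneg_right h4 (Real.exp_pos (-L2 x)).le
      calc 8 * (1 + |f x|) * Real.exp (-L2 x)
          ≤ Real.exp (2 / 3 * L2 x) * (ε * c (jj x)) * Real.exp (-L2 x) := this
        _ = ε * (c (jj x) * (Real.exp (2 / 3 * L2 x) * Real.exp (-L2 x))) := by ring
        _ = _ := by rw [h5]
    have h7 : ε * (c (jj x) * Real.exp (-(L2 x / 3))) ≤ ε * den x :=
      mul_le_mul_of_nonneg_left hdlow hε.le
    have h8 : 0 < ε * den x := by positivity
    nlinarith
  have h1 : f x - num x / den x = -((num x - f x * den x) / den x) := by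
    field_simp; ring
  rw [h1, abs_neg, abs_div, abs_of_pos hd, div_lt_iff₀ hd]
  linarith

end Approx


/-- **Every continuous real function on real `c_0` is a uniform limit of real analytic functions**
on all of `c_0` (in Mathlib `c_0` is `ZeroAtInftyContinuousMap ℕ ℝ`, the null sequences with the
supremum norm). -/
theorem result :
    ∀ f : ZeroAtInftyContinuousMap ℕ ℝ → ℝ, Continuous f →
      ∀ ε : ℝ, 0 < ε →
        ∃ g : ZeroAtInftyContinuousMap ℕ ℝ → ℝ,
          (∀ x, AnalyticAt ℝ g x) ∧ ∀ x, |f x - g x| < ε :=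
  fun f hf ε hε => approx f hf ε hε

end Pool.Agent.Results.MP_149452_an.AnalyticApprox
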